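import Pool.Agent.APD.Stmts

namespace Pool.Agent.APD

open Finset

namespace AVG_

lemma En_nonneg (L : ℕ) (g : ℤ → ℝ) (d : ℤ) (m : ℕ) : 0 ≤ En L g d m :=
  Finset.sum_nonneg fun _ _ => sq_nonneg _

lemma Lf_nonneg (f : ℤ → ℝ) (u : ℤ) (d m : ℕ) : 0 ≤ Lf f u d m :=
  Finset.sum_nonneg fun _ _ => sq_nonneg _

lemma Rt_nonneg (f : ℤ → ℝ) (u : ℤ) (d m : ℕ) : 0 ≤ Rt f u d m :=
  Finset.sum_nonneg fun _ _ => sq_nonneg _

/-- the cut of `f` to `[u, N+1-u]` -/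
noncomputable def gc (f : ℤ → ℝ) (N u : ℕ) : ℤ → ℝ := cut f (u : ℤ) ((N : ℤ) + 1 - u)

/-- the two boundary parts -/
noncomputable def LR (f : ℤ → ℝ) (N u d m : ℕ) : ℝ :=
  Lf f (u : ℤ) d m + Rt f ((N : ℤ) + 1 - u) d m

lemma LR_nonneg (f : ℤ → ℝ) (N u d m : ℕ) : 0 ≤ LR f N u d m :=
  add_nonneg (Lf_nonneg _ _ _ _) (Rt_nonneg _ _ _ _)

lemma gc_box (f : ℤ → ℝ) (N u : ℕ) (hu : 1 ≤ u) : ∀ x, x ∉ box N → gc f N u x = 0 := by
  intro x hx
  unfold gc cut
  rw [if_neg]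
  rintro ⟨h1, h2⟩
  apply hx
  unfold box
  rw [Finset.mem_Icc]
  constructor <;> omega

lemma gc_norm (f : ℤ → ℝ) (N u : ℕ) (hu : 1 ≤ u) (hN : 2 * u ≤ N + 1)
    (hf : ∀ x : ℤ, 1 ≤ x → x ≤ N → f x ^ 2 = 1) :
    ∑ x ∈ box N, (gc f N u x) ^ 2 = (N : ℝ) + 2 - 2 * u := by
  have h1 : ∑ x ∈ box N, (gc f N u x) ^ 2 = ∑ x ∈ Icc (u : ℤ) ((N : ℤ) + 1 - u), (1 : ℝ) := by
    symm
    have hsub : Icc (u : ℤ) ((N : ℤ) + 1 - u) ⊆ box N := by
      intro x hx
      rw [Finset.mem_Icc] at hx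
      unfold box
      rw [Finset.mem_Icc]
      constructor <;> omega
    rw [← Finset.sum_subset hsub]
    · apply Finset.sum_congr rfl
      intro x hx
      rw [Finset.mem_Icc] at hx
      unfold gc cut
      rw [if_pos hx]
      exact (hf x (by omega) (by omega)).symm
    · intro x _ hx
      unfold gc cut
      rw [if_neg (by rw [Finset.mem_Icc] at hx; exact hx)]
      norm_num
  rw [h1, Finset.sum_const, Int.card_Icc, nsmul_eq_mul, mul_one]
  have h2 : (((N : ℤ) + 1 - u + 1 - u).toNat : ℤ) = (N : ℤ) + 2 - 2 * u := by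
    rw [Int.toNat_of_nonneg (by omega)]
    ring
  have h3 : ((((N : ℤ) + 1 - u + 1 - u).toNat : ℤ) : ℝ) = (N : ℝ) + 2 - 2 * u := by
    rw [h2]
    push_cast
    ring
  rw [← h3]
  norm_cast

lemma sum_cast (F : ℤ → ℝ) (p q : ℕ) :
    ∑ u ∈ Icc p q, F (u : ℤ) = ∑ w ∈ Icc (p : ℤ) (q : ℤ), F w := by
  apply Finset.sum_nbij' (fun u : ℕ => (u : ℤ)) (fun w : ℤ => w.toNat)
  · intro u hu
    rw [Finset.mem_Icc] at hu ⊢
    constructor <;> omega
  · intro w hw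
    rw [Finset.mem_Icc] at hw ⊢
    constructor <;> omega
  · intro u _
    simp
  · intro w hw
    rw [Finset.mem_Icc] at hw
    omega
  · intro u _
    rfl

lemma sum_cast' (F : ℤ → ℝ) (c : ℤ) (p q : ℕ) :
    ∑ u ∈ Icc p q, F (c - u) = ∑ w ∈ Icc (c - q) (c - p), F w := by
  apply Finset.sum_nbij' (fun u : ℕ => c - (u : ℤ)) (fun w : ℤ => (c - w).toNat)
  · intro u hu
    rw [Finset.mem_Icc] at hu ⊢
    constructor <;> omega
  · intro w hw
    rw [Finset.mem_Icc] at hw ⊢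
    constructor <;> omega
  · intro u _
    simp
  · intro w hw
    rw [Finset.mem_Icc] at hw
    omega
  · intro u _
    rfl

/-- standing assumptions -/
structure Ctx (k D V : ℕ) (s : ℝ) (f : ℤ → ℝ) : Prop where
  hk : 1 ≤ k
  hD : 1 ≤ D
  hs0 : 0 ≤ s
  hV : 120 * k * D ≤ V
  hf : ∀ x : ℤ, 1 ≤ x → x ≤ ((16 * V : ℕ) : ℤ) → f x ^ 2 = 1
  hS : ∀ (x : ℤ) (d : ℕ), 1 ≤ d → 1 ≤ x → x + ((k : ℤ) - 1) * d ≤ ((16 * V : ℕ) : ℤ) →
    (S f d k x) ^ 2 ≤ s

variable {k D V : ℕ} {s : ℝ} {f : ℤ → ℝ}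

lemma kd_le (h : Ctx k D V s f) {d : ℕ} (hd : d ≤ D) : 120 * (k * d) ≤ V := by
  have := Nat.mul_le_mul_left (120 * k) hd
  have h2 := h.hV
  nlinarith

lemma md_le (h : Ctx k D V s f) {m d : ℕ} (hm : m ≤ k - 1) (hd : d ≤ D) :
    m * d ≤ V := by
  have h1 := kd_le h hd
  have h2 : m * d ≤ k * d := Nat.mul_le_mul_right d (by omega)
  omega

/-- the box size -/
def LL (k D V : ℕ) : ℕ := 16 * V + k * (2 * D + 1)

/-- energies -/
noncomputable def Eg (f : ℤ → ℝ) (k D V u d m : ℕ) : ℝ :=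
  En (LL k D V) (gc f (16 * V) u) d m

lemma Eg_nonneg (f : ℤ → ℝ) (k D V u d m : ℕ) : 0 ≤ Eg f k D V u d m := En_nonneg _ _ _ _

lemma stepA (hC : Stmt_CMP) (h : Ctx k D V s f) (u : ℕ) (hu : u ∈ Icc 1 (4 * V)) (m : ℕ)
    (hm : m ∈ Icc 1 (k - 1)) :
    ∑ d ∈ (Icc 1 D).filter (fun d => 120 * k * d ≤ u), Eg f k D V u d m ≤
      30 * ((k : ℝ) ^ 2 * (16 * V) +
        ∑ d ∈ (Icc 1 D).filter (fun d => 240 * k * d ≤ u), Eg f k D V u d k) := by
  rw [Finset.mem_Icc] at hu hm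
  have hk := h.hk
  set D' := min D (u / (240 * k)) with hD'
  have h1 := hC (LL k D V) (16 * V) k m D' (gc f (16 * V) u) hk (by omega)
    (gc_box f (16 * V) u hu.1) (by
      unfold LL
      have : k * (2 * D' + 1) ≤ k * (2 * D + 1) := Nat.mul_le_mul_left k (by omega)
      omega)
  rw [gc_norm f (16 * V) u hu.1 (by omega) h.hf] at h1
  have h2 : ∑ d ∈ (Icc 1 D).filter (fun d => 120 * k * d ≤ u), Eg f k D V u d m ≤
      ∑ d ∈ Icc 1 (2 * D' + 1), En (LL k D V) (gc f (16 * V) u) d m := by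
    apply Finset.sum_le_sum_of_subset_of_nonneg
    · intro d hd
      rw [Finset.mem_filter, Finset.mem_Icc] at hd
      rw [Finset.mem_Icc]
      refine ⟨hd.1.1, ?_⟩
      rcases le_total D (u / (240 * k)) with hc | hc
      · rw [hD', min_eq_left hc]
        omega
      · rw [hD', min_eq_right hc]
        by_contra hcon
        push Not at hcon
        have h3 : 2 * (u / (240 * k) + 1) ≤ d := by omega
        have h4 : u < 240 * k * (u / (240 * k) + 1) := Nat.lt_mul_div_succ u (by omega)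
        have h5 : 240 * k * (u / (240 * k) + 1) ≤ 120 * k * d := by
          calc 240 * k * (u / (240 * k) + 1) = 120 * k * (2 * (u / (240 * k) + 1)) := by ring
            _ ≤ 120 * k * d := Nat.mul_le_mul_left _ h3
        omega
    · intro d _ _
      exact En_nonneg _ _ _ _
  have h3 : ∑ d ∈ Icc 1 D', En (LL k D V) (gc f (16 * V) u) d k =
      ∑ d ∈ (Icc 1 D).filter (fun d => 240 * k * d ≤ u), Eg f k D V u d k := by
    apply Finset.sum_congr _ (fun _ _ => rfl)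
    ext d
    rw [Finset.mem_filter, Finset.mem_Icc, Finset.mem_Icc, hD', le_min_iff,
      Nat.le_div_iff_mul_le (by omega)]
    constructor
    · rintro ⟨a, b, c⟩
      exact ⟨⟨a, b⟩, by linarith⟩
    · rintro ⟨⟨a, b⟩, c⟩
      exact ⟨a, b, by linarith⟩
  rw [h3] at h1
  refine h2.trans (h1.trans ?_)
  have hu0 : (1 : ℝ) ≤ u := by exact_mod_cast hu.1
  have h4 : (((16 * V : ℕ) : ℝ) + 2 - 2 * u) ≤ 16 * V := by
    push_cast
    linarith
  have h5 : (k : ℝ) ^ 2 * (((16 * V : ℕ) : ℝ) + 2 - 2 * u) ≤ (k : ℝ) ^ 2 * (16 * V) :=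
    mul_le_mul_of_nonneg_left h4 (by positivity)
  linarith

lemma stepB (hD : Stmt_DEC) (h : Ctx k D V s f) (u : ℕ) (hu : u ∈ Icc 1 (4 * V)) (d : ℕ)
    (hd : d ∈ Icc 1 D) :
    Eg f k D V u d k ≤ ((16 * V : ℝ) + 2 - 2 * u) * s + ∑ m ∈ Icc 1 (k - 1), LR f (16 * V) u d m := by
  rw [Finset.mem_Icc] at hu hd
  have hkd := kd_le h hd.2
  have hkd' : (120 * ((k : ℤ) * d)) ≤ V := by exact_mod_cast hkd
  have h1 := hD (LL k D V) k d (u : ℤ) (((16 * V : ℕ) : ℤ) + 1 - u) f s hd.1 h.hk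
    (by push_cast; omega) (fun x hx1 hx2 => h.hS x d hd.1 (by omega) (by omega)) h.hs0
  refine h1.trans (le_of_eq ?_)
  congr 2
  push_cast
  ring

lemma stepC (hL : Stmt_LFT) (hR : Stmt_RGT) (h : Ctx k D V s f) (d : ℕ) (hd : d ∈ Icc 1 D)
    (m : ℕ) (hm : m ∈ Icc 1 (k - 1)) (u p q : ℕ) (hu : 1 ≤ u) (hup : u ≤ p) (hq : q ≤ 4 * V)
    (hpq : p ≤ q) :
    ∑ w ∈ Icc p q, LR f (16 * V) w d m ≤ 2 * d * Eg f k D V u d m := by
  rw [Finset.mem_Icc] at hd hm
  have hmd := md_le h hm.2 hd.2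
  have hmd' : ((m : ℤ) * d) ≤ V := by exact_mod_cast hmd
  have hd' : (d : ℤ) ≤ V := by
    have h1 : 1 * d ≤ k * d := Nat.mul_le_mul_right d h.hk
    have h2 := kd_le h hd.2
    have : d ≤ V := by omega
    exact_mod_cast this
  have hLL : (((16 * V : ℕ) : ℤ)) ≤ ((LL k D V : ℕ) : ℤ) := by
    unfold LL
    push_cast
    have : (0 : ℤ) ≤ (k : ℤ) * (2 * D + 1) := by positivity
    omega
  have hLL' : (16 * (V : ℤ)) ≤ ((LL k D V : ℕ) : ℤ) := by
    have := hLL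
    push_cast at this
    exact this
  have h1 := hL (LL k D V) d m (u : ℤ) (((16 * V : ℕ) : ℤ) + 1 - u) (p : ℤ) (q : ℤ) f hd.1 hm.1
    (by omega) (by push_cast; omega) (by omega) (by omega)
  have h2 := hR (LL k D V) d m (u : ℤ) (((16 * V : ℕ) : ℤ) + 1 - u)
    (((16 * V : ℕ) : ℤ) + 1 - q) (((16 * V : ℕ) : ℤ) + 1 - p) f hd.1 hm.1
    (by omega) (by push_cast; omega) (by omega) (by omega)
  rw [← sum_cast (fun w => Lf f w d m)] at h1
  rw [← sum_cast' (fun w => Rt f w d m)] at h2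
  unfold LR
  rw [Finset.sum_add_distrib]
  unfold Eg gc
  linarith

lemma stepD (hL : Stmt_LFT) (hR : Stmt_RGT) (h : Ctx k D V s f) (d : ℕ) (hd : d ∈ Icc 1 D)
    (m : ℕ) (hm : m ∈ Icc 1 (k - 1)) :
    (60 * k : ℝ) * ∑ w ∈ Icc (240 * k * d) (4 * V), LR f (16 * V) w d m ≤
      ∑ u ∈ (Icc 1 (4 * V)).filter (fun u => 120 * k * d ≤ u), Eg f k D V u d m := by
  have hd' := Finset.mem_Icc.mp hd
  have hkd := kd_le h hd'.2
  have hk := h.hk
  have hkd0 : 1 ≤ k * d := Nat.mul_pos hk hd'.1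
  have h1 : ∀ u ∈ Ico (120 * k * d) (240 * k * d),
      ∑ w ∈ Icc (240 * k * d) (4 * V), LR f (16 * V) w d m ≤ 2 * d * Eg f k D V u d m := by
    intro u hu
    rw [Finset.mem_Ico] at hu
    apply stepC hL hR h d hd m hm u _ _ _ hu.2.le le_rfl
    · have : 240 * k * d = 240 * (k * d) := by ring
      omega
    · have : 120 * k * d = 120 * (k * d) := by ring
      omega
  have h2 := Finset.sum_le_sum h1
  rw [Finset.sum_const, Nat.card_Ico, nsmul_eq_mul, ← Finset.mul_sum] at h2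
  have h3 : ∑ u ∈ Ico (120 * k * d) (240 * k * d), Eg f k D V u d m ≤
      ∑ u ∈ (Icc 1 (4 * V)).filter (fun u => 120 * k * d ≤ u), Eg f k D V u d m := by
    apply Finset.sum_le_sum_of_subset_of_nonneg
    · intro u hu
      rw [Finset.mem_Ico] at hu
      rw [Finset.mem_filter, Finset.mem_Icc]
      have e1 : 120 * k * d = 120 * (k * d) := by ring
      have e2 : 240 * k * d = 240 * (k * d) := by ring
      refine ⟨⟨?_, ?_⟩, hu.1⟩ <;> omega
    · intro u _ _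
      exact Eg_nonneg _ _ _ _ _ _ _
  have h4 : ((240 * k * d - 120 * k * d : ℕ) : ℝ) = 120 * k * d := by
    have : 240 * k * d - 120 * k * d = 120 * k * d := by
      have : 240 * k * d = 120 * k * d + 120 * k * d := by ring
      omega
    rw [this]
    push_cast
    ring
  rw [h4] at h2
  have hdpos : (0 : ℝ) < d := by exact_mod_cast hd'.1
  set X := ∑ w ∈ Icc (240 * k * d) (4 * V), LR f (16 * V) w d m
  set Y := ∑ u ∈ Ico (120 * k * d) (240 * k * d), Eg f k D V u d m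
  have h5 : (60 * k : ℝ) * X ≤ Y := by
    have : (2 * d : ℝ) * ((60 * k : ℝ) * X) ≤ (2 * d : ℝ) * Y := by
      calc (2 * d : ℝ) * ((60 * k : ℝ) * X) = 120 * k * d * X := by ring
        _ ≤ _ := h2
    exact le_of_mul_le_mul_left this (by positivity)
  exact h5.trans h3

/-- the total energy of short progressions -/
noncomputable def SS (f : ℤ → ℝ) (k D V : ℕ) : ℝ :=
  ∑ m ∈ Icc 1 (k - 1), ∑ d ∈ Icc 1 D,
    ∑ u ∈ (Icc 1 (4 * V)).filter (fun u => 120 * k * d ≤ u), Eg f k D V u d m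

/-- the total boundary part -/
noncomputable def TL (f : ℤ → ℝ) (k D V : ℕ) : ℝ :=
  ∑ m ∈ Icc 1 (k - 1), ∑ d ∈ Icc 1 D, ∑ w ∈ Icc (240 * k * d) (4 * V), LR f (16 * V) w d m

lemma TL_le (hL : Stmt_LFT) (hR : Stmt_RGT) (h : Ctx k D V s f) :
    (60 * k : ℝ) * TL f k D V ≤ SS f k D V := by
  unfold TL SS
  rw [Finset.mul_sum]
  apply Finset.sum_le_sum
  intro m hm
  rw [Finset.mul_sum]
  apply Finset.sum_le_sum
  intro d hd
  exact stepD hL hR h d hd m hm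

lemma SS_swap : SS f k D V = ∑ m ∈ Icc 1 (k - 1), ∑ u ∈ Icc 1 (4 * V),
    ∑ d ∈ (Icc 1 D).filter (fun d => 120 * k * d ≤ u), Eg f k D V u d m := by
  unfold SS
  apply Finset.sum_congr rfl
  intro m _
  apply Finset.sum_comm'
  intro d u
  simp only [Finset.mem_filter]
  tauto

lemma TL_swap (h : Ctx k D V s f) : TL f k D V = ∑ u ∈ Icc 1 (4 * V),
    ∑ d ∈ (Icc 1 D).filter (fun d => 240 * k * d ≤ u), ∑ m ∈ Icc 1 (k - 1),
      LR f (16 * V) u d m := by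
  unfold TL
  have h1 : ∀ d ∈ Icc 1 D, Icc (240 * k * d) (4 * V) =
      (Icc 1 (4 * V)).filter (fun u => 240 * k * d ≤ u) := by
    intro d hd
    rw [Finset.mem_Icc] at hd
    have hkd0 : 1 ≤ k * d := Nat.mul_pos h.hk hd.1
    have e2 : 240 * k * d = 240 * (k * d) := by ring
    ext u
    rw [Finset.mem_filter, Finset.mem_Icc, Finset.mem_Icc]
    constructor
    · rintro ⟨a, b⟩
      exact ⟨⟨by omega, b⟩, a⟩
    · rintro ⟨⟨a, b⟩, c⟩
      exact ⟨c, b⟩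
  have h2 : ∀ m ∈ Icc 1 (k - 1), ∑ d ∈ Icc 1 D, ∑ w ∈ Icc (240 * k * d) (4 * V),
      LR f (16 * V) w d m = ∑ u ∈ Icc 1 (4 * V),
      ∑ d ∈ (Icc 1 D).filter (fun d => 240 * k * d ≤ u), LR f (16 * V) u d m := by
    intro m _
    rw [Finset.sum_congr rfl (fun d hd => by rw [h1 d hd])]
    apply Finset.sum_comm'
    intro d u
    simp only [Finset.mem_filter]
    tauto
  rw [Finset.sum_congr rfl h2, Finset.sum_comm]
  apply Finset.sum_congr rfl
  intro u _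
  rw [Finset.sum_comm]

lemma SS_le (hC : Stmt_CMP) (hD : Stmt_DEC) (hL : Stmt_LFT) (hR : Stmt_RGT)
    (h : Ctx k D V s f) :
    SS f k D V ≤ 3840 * (k : ℝ) * (V : ℝ) ^ 2 * ((k : ℝ) ^ 2 + D * s) := by
  have hk := h.hk
  set W := ∑ u ∈ Icc 1 (4 * V), ∑ d ∈ (Icc 1 D).filter (fun d => 240 * k * d ≤ u),
    Eg f k D V u d k with hW
  have h1 : SS f k D V ≤ (k : ℝ) * (30 * ((k : ℝ) ^ 2 * (16 * V) * (4 * V) + W)) := by
    rw [SS_swap]
    have h2 : ∀ m ∈ Icc 1 (k - 1), ∑ u ∈ Icc 1 (4 * V),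
        ∑ d ∈ (Icc 1 D).filter (fun d => 120 * k * d ≤ u), Eg f k D V u d m ≤
        30 * ((k : ℝ) ^ 2 * (16 * V) * (4 * V) + W) := by
      intro m hm
      calc ∑ u ∈ Icc 1 (4 * V),
        ∑ d ∈ (Icc 1 D).filter (fun d => 120 * k * d ≤ u), Eg f k D V u d m
          ≤ ∑ u ∈ Icc 1 (4 * V), 30 * ((k : ℝ) ^ 2 * (16 * V) +
              ∑ d ∈ (Icc 1 D).filter (fun d => 240 * k * d ≤ u), Eg f k D V u d k) :=
            Finset.sum_le_sum fun u hu => stepA hC h u hu m hm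
        _ = 30 * ((k : ℝ) ^ 2 * (16 * V) * (4 * V) + W) := by
            rw [← Finset.mul_sum, Finset.sum_add_distrib, Finset.sum_const, Nat.card_Icc, ← hW]
            simp only [nsmul_eq_mul, Nat.add_sub_cancel]
            push_cast
            ring
    refine (Finset.sum_le_sum h2).trans ?_
    rw [Finset.sum_const, Nat.card_Icc, nsmul_eq_mul]
    apply mul_le_mul_of_nonneg_right
    · exact_mod_cast (by omega : k - 1 + 1 - 1 ≤ k)
    · have hW0 : 0 ≤ W := Finset.sum_nonneg fun u _ => Finset.sum_nonneg fun d _ =>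
        Eg_nonneg _ _ _ _ _ _ _
      positivity
  have hs0 := h.hs0
  have h2 : W ≤ (4 * V) * D * (16 * V) * s + TL f k D V := by
    rw [TL_swap h, hW]
    calc ∑ u ∈ Icc 1 (4 * V), ∑ d ∈ (Icc 1 D).filter (fun d => 240 * k * d ≤ u),
          Eg f k D V u d k
        ≤ ∑ u ∈ Icc 1 (4 * V), ((D : ℝ) * (16 * V) * s +
            ∑ d ∈ (Icc 1 D).filter (fun d => 240 * k * d ≤ u), ∑ m ∈ Icc 1 (k - 1),
              LR f (16 * V) u d m) := by
          apply Finset.sum_le_sum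
          intro u hu
          have hu1 : (1 : ℝ) ≤ u := by exact_mod_cast (Finset.mem_Icc.mp hu).1
          have h3 : ∀ d ∈ (Icc 1 D).filter (fun d => 240 * k * d ≤ u),
              Eg f k D V u d k ≤ (16 * V : ℝ) * s + ∑ m ∈ Icc 1 (k - 1), LR f (16 * V) u d m := by
            intro d hd
            have h4 := stepB hD h u hu d (Finset.mem_filter.mp hd).1
            have h6 : ((16 * V : ℝ) + 2 - 2 * u) * s ≤ (16 * V : ℝ) * s :=
              mul_le_mul_of_nonneg_right (by linarith) h.hs0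
            linarith
          refine (Finset.sum_le_sum h3).trans ?_
          rw [Finset.sum_add_distrib, Finset.sum_const, nsmul_eq_mul]
          have h6 : (((Icc 1 D).filter (fun d => 240 * k * d ≤ u)).card : ℝ) ≤ D := by
            have : ((Icc 1 D).filter (fun d => 240 * k * d ≤ u)).card ≤ (Icc 1 D).card :=
              Finset.card_filter_le _ _
            rw [Nat.card_Icc] at this
            exact_mod_cast (by omega : ((Icc 1 D).filter (fun d => 240 * k * d ≤ u)).card ≤ D)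
          have h7 : (((Icc 1 D).filter (fun d => 240 * k * d ≤ u)).card : ℝ) * ((16 * V : ℝ) * s) ≤
              D * ((16 * V : ℝ) * s) := mul_le_mul_of_nonneg_right h6 (by positivity)
          linarith
      _ = _ := by
          rw [Finset.sum_add_distrib, Finset.sum_const, Nat.card_Icc]
          simp only [nsmul_eq_mul, Nat.add_sub_cancel]
          push_cast
          ring
  have h3 := TL_le hL hR h
  have h4 : (k : ℝ) * (30 * ((k : ℝ) ^ 2 * (16 * V) * (4 * V) + W)) ≤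
      (k : ℝ) * (30 * ((k : ℝ) ^ 2 * (16 * V) * (4 * V) +
        ((4 * V) * D * (16 * V) * s + TL f k D V))) := by
    apply mul_le_mul_of_nonneg_left _ (by positivity)
    linarith
  have h5 : (k : ℝ) * (30 * ((k : ℝ) ^ 2 * (16 * V) * (4 * V) +
        ((4 * V) * D * (16 * V) * s + TL f k D V))) =
      1920 * (k : ℝ) * (V : ℝ) ^ 2 * ((k : ℝ) ^ 2 + D * s) + ((60 * k : ℝ) * TL f k D V) / 2 := by
    ring
  linarith

lemma avg (hC : Stmt_CMP) (hD : Stmt_DEC) (hL : Stmt_LFT) (hR : Stmt_RGT)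
    (h : Ctx k D V s f) : ∃ u ∈ Icc (2 * V) (4 * V - 1),
    ∑ m ∈ Icc 1 (k - 1), ∑ d ∈ Icc 1 D, LR f (16 * V) u d m ≤
      3840 * D * (k : ℝ) * ((k : ℝ) ^ 2 + D * s) := by
  have hk := h.hk
  have hs0 := h.hs0
  have hD1 := h.hD
  have hV1 : 1 ≤ V := by
    have h1 := h.hV
    have h2 : 1 ≤ k * D := Nat.mul_pos hk hD1
    have e2 : 120 * k * D = 120 * (k * D) := by ring
    omega
  have hVr : (1 : ℝ) ≤ V := by exact_mod_cast hV1
  have hDr : (1 : ℝ) ≤ D := by exact_mod_cast hD1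
  have h1 : (V : ℝ) * ∑ m ∈ Icc 1 (k - 1), ∑ d ∈ Icc 1 D, ∑ u ∈ Icc (2 * V) (4 * V - 1),
      LR f (16 * V) u d m ≤ 2 * D * SS f k D V := by
    unfold SS
    rw [Finset.mul_sum, Finset.mul_sum]
    apply Finset.sum_le_sum
    intro m hm
    rw [Finset.mul_sum, Finset.mul_sum]
    apply Finset.sum_le_sum
    intro d hd
    have hd' := Finset.mem_Icc.mp hd
    have hkd := kd_le h hd'.2
    have h2 : ∀ u ∈ Ico V (2 * V), ∑ w ∈ Icc (2 * V) (4 * V - 1), LR f (16 * V) w d m ≤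
        2 * D * Eg f k D V u d m := by
      intro u hu
      rw [Finset.mem_Ico] at hu
      refine (stepC hL hR h d hd m hm u _ _ (by omega) hu.2.le (by omega) (by omega)).trans ?_
      apply mul_le_mul_of_nonneg_right _ (Eg_nonneg _ _ _ _ _ _ _)
      have : (d : ℝ) ≤ D := by exact_mod_cast hd'.2
      linarith
    have h3 := Finset.sum_le_sum h2
    rw [Finset.sum_const, Nat.card_Ico, nsmul_eq_mul, ← Finset.mul_sum] at h3
    have h4 : ((2 * V - V : ℕ) : ℝ) = V := by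
      have : 2 * V - V = V := by omega
      rw [this]
    rw [h4] at h3
    refine h3.trans ?_
    apply mul_le_mul_of_nonneg_left _ (by positivity)
    apply Finset.sum_le_sum_of_subset_of_nonneg
    · intro u hu
      rw [Finset.mem_Ico] at hu
      rw [Finset.mem_filter, Finset.mem_Icc]
      have e1 : 120 * k * d = 120 * (k * d) := by ring
      refine ⟨⟨?_, ?_⟩, ?_⟩ <;> omega
    · intro u _ _
      exact Eg_nonneg _ _ _ _ _ _ _
  have h2 := SS_le hC hD hL hR h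
  have h3 : ∑ m ∈ Icc 1 (k - 1), ∑ d ∈ Icc 1 D, ∑ u ∈ Icc (2 * V) (4 * V - 1),
      LR f (16 * V) u d m = ∑ u ∈ Icc (2 * V) (4 * V - 1), ∑ m ∈ Icc 1 (k - 1),
        ∑ d ∈ Icc 1 D, LR f (16 * V) u d m := by
    rw [Finset.sum_congr rfl (fun m _ => Finset.sum_comm), Finset.sum_comm]
  rw [h3] at h1
  set Z := ∑ u ∈ Icc (2 * V) (4 * V - 1), ∑ m ∈ Icc 1 (k - 1),
        ∑ d ∈ Icc 1 D, LR f (16 * V) u d m with hZ
  have h4 : (V : ℝ) * Z ≤ V * ((2 * V) * (3840 * D * (k : ℝ) * ((k : ℝ) ^ 2 + D * s))) := by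
    calc (V : ℝ) * Z ≤ 2 * D * SS f k D V := h1
      _ ≤ 2 * D * (3840 * (k : ℝ) * (V : ℝ) ^ 2 * ((k : ℝ) ^ 2 + D * s)) :=
          mul_le_mul_of_nonneg_left h2 (by positivity)
      _ = _ := by ring
  have h5 : Z ≤ (2 * V) * (3840 * D * (k : ℝ) * ((k : ℝ) ^ 2 + D * s)) :=
    le_of_mul_le_mul_left h4 (by linarith)
  have h6 : (2 * V : ℝ) * (3840 * D * (k : ℝ) * ((k : ℝ) ^ 2 + D * s)) =
      ∑ u ∈ Icc (2 * V) (4 * V - 1), (3840 * D * (k : ℝ) * ((k : ℝ) ^ 2 + D * s)) := by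
    rw [Finset.sum_const, Nat.card_Icc, nsmul_eq_mul]
    have : 4 * V - 1 + 1 - 2 * V = 2 * V := by omega
    rw [this]
    push_cast
    ring
  rw [h6, hZ] at h5
  obtain ⟨u, hu, h7⟩ := Finset.exists_le_of_sum_le (s := Icc (2 * V) (4 * V - 1))
    ⟨2 * V, by rw [Finset.mem_Icc]; omega⟩ h5
  exact ⟨u, hu, h7⟩

end AVG_

open AVG_

/-- The main inequality: no sign function on `[1, 16 V]` has all its `k`-term sums with squares
at most `s`, when `D (k - s) ≥ 2 k ^ 2` and `V ≥ 960 D (k + D)`. -/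
theorem main (hC : Stmt_CMP) (hDE : Stmt_DEC) (hL : Stmt_LFT) (hR : Stmt_RGT) (hF : Stmt_FEJ)
    (k D V : ℕ) (s : ℝ) (f : ℤ → ℝ) (hk : 1 ≤ k) (hs0 : 0 ≤ s) (hsk : s < k)
    (hDk : 2 * (k : ℝ) ^ 2 ≤ D * (k - s)) (hV : 960 * D * (k + D) ≤ V)
    (hf : ∀ x : ℤ, 1 ≤ x → x ≤ ((16 * V : ℕ) : ℤ) → f x ^ 2 = 1)
    (hS : ∀ (x : ℤ) (d : ℕ), 1 ≤ d → 1 ≤ x → x + ((k : ℤ) - 1) * d ≤ ((16 * V : ℕ) : ℤ) →
      (S f d k x) ^ 2 ≤ s) : False := by
  have hkr : (1 : ℝ) ≤ k := by exact_mod_cast hk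
  have hD1 : 1 ≤ D := by
    rcases Nat.eq_zero_or_pos D with h0 | h0
    · exfalso
      rw [h0] at hDk
      simp only [Nat.cast_zero, zero_mul] at hDk
      nlinarith
    · exact h0
  have hDr : (1 : ℝ) ≤ D := by exact_mod_cast hD1
  have hctx : Ctx k D V s f :=
    { hk := hk
      hD := hD1
      hs0 := hs0
      hV := by nlinarith [Nat.zero_le (D * D), Nat.zero_le (k * D)]
      hf := hf
      hS := hS }
  obtain ⟨u, hu, hH0⟩ := avg hC hDE hL hR hctx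
  have hH : ∑ m ∈ Icc 1 (k - 1), ∑ d ∈ Icc 1 D, LR f (16 * V) u d m ≤
      3840 * D * (k : ℝ) ^ 2 * (k + D) := by
    refine hH0.trans ?_
    have e1 : (D : ℝ) * s ≤ D * k := mul_le_mul_of_nonneg_left hsk.le (by positivity)
    have e2 : 3840 * D * (k : ℝ) ^ 2 * (k + D) = 3840 * D * (k : ℝ) * ((k : ℝ) ^ 2 + D * k) := by
      ring
    rw [e2]
    apply mul_le_mul_of_nonneg_left _ (by positivity)
    linarith
  have hu' := Finset.mem_Icc.mp hu
  have hV1 : 1 ≤ V := by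
    have h2 : 1 ≤ D * (k + D) := Nat.mul_pos hD1 (by omega)
    nlinarith
  have hu1 : 1 ≤ u := by omega
  have huI : u ∈ Icc 1 (4 * V) := by rw [Finset.mem_Icc]; omega
  have h1 := hF (LL k D V) (16 * V) k D (gc f (16 * V) u) (gc_box f _ u hu1) (by
    unfold LL
    have : k * (D + 1) ≤ k * (2 * D + 1) := Nat.mul_le_mul_left k (by omega)
    omega)
  rw [gc_norm f (16 * V) u hu1 (by omega) hf] at h1
  set n : ℝ := ((16 * V : ℕ) : ℝ) + 2 - 2 * u with hn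
  set H := ∑ m ∈ Icc 1 (k - 1), ∑ d ∈ Icc 1 D, LR f (16 * V) u d m with hHdef
  have hn8 : 8 * (V : ℝ) + 4 ≤ n := by
    have : (u : ℝ) ≤ 4 * V - 1 := by
      have h3 : u + 1 ≤ 4 * V := by omega
      have : ((u + 1 : ℕ) : ℝ) ≤ ((4 * V : ℕ) : ℝ) := by exact_mod_cast h3
      push_cast at this
      linarith
    rw [hn]
    push_cast
    linarith
  have h2 : ∑ d ∈ Icc 1 D, ((D : ℝ) + 1 - d) * En (LL k D V) (gc f (16 * V) u) d k ≤
      ∑ d ∈ Icc 1 D, (((D : ℝ) + 1 - d) * (n * s) +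
        ((D : ℝ) + 1) * ∑ m ∈ Icc 1 (k - 1), LR f (16 * V) u d m) := by
    apply Finset.sum_le_sum
    intro d hd
    have hd' := Finset.mem_Icc.mp hd
    have hdr : (d : ℝ) ≤ D := by exact_mod_cast hd'.2
    have h3 := stepB hDE hctx u huI d hd
    unfold Eg at h3
    have h4 : 0 ≤ ∑ m ∈ Icc 1 (k - 1), LR f (16 * V) u d m :=
      Finset.sum_nonneg fun m _ => LR_nonneg _ _ _ _ _
    have h5 : n = (16 * V : ℝ) + 2 - 2 * u := by
      rw [hn]
      push_cast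
      ring
    rw [← h5] at h3
    have h6 : ((D : ℝ) + 1 - d) * En (LL k D V) (gc f (16 * V) u) d k ≤
        ((D : ℝ) + 1 - d) * (n * s + ∑ m ∈ Icc 1 (k - 1), LR f (16 * V) u d m) :=
      mul_le_mul_of_nonneg_left h3 (by linarith)
    have h7 : ((D : ℝ) + 1 - d) * ∑ m ∈ Icc 1 (k - 1), LR f (16 * V) u d m ≤
        ((D : ℝ) + 1) * ∑ m ∈ Icc 1 (k - 1), LR f (16 * V) u d m :=
      mul_le_mul_of_nonneg_right (by linarith [(Nat.cast_nonneg d : (0 : ℝ) ≤ d)]) h4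
    linarith
  have h3 : ∑ d ∈ Icc 1 D, ((D : ℝ) + 1 - d) = (D : ℝ) * (D + 1) / 2 := by
    have key : ∀ M : ℕ, ∑ d ∈ Icc 1 M, ((M : ℝ) + 1 - d) = (M : ℝ) * (M + 1) / 2 := by
      intro M
      induction M with
      | zero => simp
      | succ M ih =>
        rw [Finset.sum_Icc_succ_top (by omega)]
        have : ∑ d ∈ Icc 1 M, (((M + 1 : ℕ) : ℝ) + 1 - d) =
            ∑ d ∈ Icc 1 M, (((M : ℝ) + 1 - d) + 1) := by
          apply Finset.sum_congr rfl
          intro d _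
          push_cast
          ring
        rw [this, Finset.sum_add_distrib, ih, Finset.sum_const, Nat.card_Icc]
        simp only [nsmul_eq_mul, Nat.add_sub_cancel]
        push_cast
        ring
    exact key D
  have h4 : ∑ d ∈ Icc 1 D, (((D : ℝ) + 1 - d) * (n * s) +
        ((D : ℝ) + 1) * ∑ m ∈ Icc 1 (k - 1), LR f (16 * V) u d m) =
      (D : ℝ) * (D + 1) / 2 * (n * s) + ((D : ℝ) + 1) * H := by
    rw [Finset.sum_add_distrib, ← Finset.sum_mul, h3, ← Finset.mul_sum, hHdef]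
    congr 2
    exact Finset.sum_comm
  rw [h4] at h2
  have h5 : ((D : ℝ) + 1) * (n * (k * ((D : ℝ) + 1 - k) - D * s)) ≤ ((D : ℝ) + 1) * (2 * H) := by
    have e : ((D : ℝ) + 1) * k * ((D : ℝ) + 1 - k) * n ≤
        2 * ((D : ℝ) * (D + 1) / 2 * (n * s) + ((D : ℝ) + 1) * H) := by
      refine h1.trans ?_
      linarith
    nlinarith
  have h6 : n * (k * ((D : ℝ) + 1 - k) - D * s) ≤ 2 * H :=
    le_of_mul_le_mul_left h5 (by linarith)
  have h7 : (k : ℝ) ^ 2 + k ≤ k * ((D : ℝ) + 1 - k) - D * s := by nlinarith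
  have hn0 : 0 < n := by
    have : (0 : ℝ) ≤ V := by positivity
    linarith
  have h8 : (8 * (V : ℝ) + 4) * ((k : ℝ) ^ 2 + k) ≤ 2 * H := by
    calc (8 * (V : ℝ) + 4) * ((k : ℝ) ^ 2 + k) ≤ n * ((k : ℝ) ^ 2 + k) :=
          mul_le_mul_of_nonneg_right hn8 (by positivity)
      _ ≤ n * (k * ((D : ℝ) + 1 - k) - D * s) := mul_le_mul_of_nonneg_left h7 hn0.le
      _ ≤ 2 * H := h6
  have hVr : 960 * (D : ℝ) * (k + D) ≤ V := by exact_mod_cast hV
  have h9 : 8 * (V : ℝ) * (k : ℝ) ^ 2 ≥ 7680 * D * (k : ℝ) ^ 2 * (k + D) := by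
    have : 8 * (960 * (D : ℝ) * (k + D)) * (k : ℝ) ^ 2 ≤ 8 * (V : ℝ) * (k : ℝ) ^ 2 :=
      mul_le_mul_of_nonneg_right (by linarith) (by positivity)
    linarith
  have h10 : (0 : ℝ) ≤ V := by positivity
  nlinarith [mul_nonneg h10 (by linarith : (0 : ℝ) ≤ k)]

end Pool.Agent.APD
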