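import Pool.Agent.APD.AVG
import Pool.Agent.APD.DEC2

/-!
# APD, module BEY: beyond the square root

If all `k`-term sums are at most `a` in absolute value with `a ^ 2` slightly above or below `k`, then
almost all of them are `± a`, hence `f (x) = f (x + k d)` for most `(x, d)`, which produces a long
progression of difference `k` with a large sum.
-/

namespace Pool.Agent.APD

open Finset

namespace BEY_

/-- indicator of the windows whose sum is not `± a` -/
noncomputable def bad (f : ℤ → ℝ) (k d : ℕ) (a : ℝ) (x : ℤ) : ℝ :=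
  if |S f d k x| = a then 0 else 1

/-- indicator of `f x ≠ f (x + c)` -/
noncomputable def ne (f : ℤ → ℝ) (c : ℤ) (x : ℤ) : ℝ := if f x = f (x + c) then 0 else 1

noncomputable def Bd (f : ℤ → ℝ) (u v : ℤ) (k d : ℕ) (a : ℝ) : ℝ :=
  ∑ x ∈ Icc u (v - ((k : ℤ) - 1) * d), bad f k d a x

noncomputable def pd (f : ℤ → ℝ) (u v : ℤ) (k t : ℕ) : ℝ :=
  ∑ x ∈ Icc u (v - (k : ℤ) * t), ne f ((k : ℤ) * t) x

lemma bad_nonneg (f : ℤ → ℝ) (k d : ℕ) (a : ℝ) (x : ℤ) : 0 ≤ bad f k d a x := by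
  unfold bad
  split_ifs <;> norm_num

lemma ne_nonneg (f : ℤ → ℝ) (c : ℤ) (x : ℤ) : 0 ≤ ne f c x := by
  unfold ne
  split_ifs <;> norm_num

lemma ne_le_one (f : ℤ → ℝ) (c : ℤ) (x : ℤ) : ne f c x ≤ 1 := by
  unfold ne
  split_ifs <;> norm_num

lemma Bd_nonneg (f : ℤ → ℝ) (u v : ℤ) (k d : ℕ) (a : ℝ) : 0 ≤ Bd f u v k d a :=
  Finset.sum_nonneg fun _ _ => bad_nonneg _ _ _ _ _

lemma pd_nonneg (f : ℤ → ℝ) (u v : ℤ) (k t : ℕ) : 0 ≤ pd f u v k t :=
  Finset.sum_nonneg fun _ _ => ne_nonneg _ _ _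

lemma S_succ (f : ℤ → ℝ) (d k : ℕ) (x : ℤ) :
    S f d k (x + d) - S f d k x = f (x + (k : ℤ) * d) - f x := by
  have h1 : ∑ j ∈ range (k + 1), f (x + (j : ℤ) * d) = S f d k x + f (x + (k : ℤ) * d) := by
    rw [Finset.sum_range_succ]
    rfl
  have h2 : ∑ j ∈ range (k + 1), f (x + (j : ℤ) * d) = S f d k (x + d) + f x := by
    rw [Finset.sum_range_succ']
    congr 1
    · unfold S
      apply Finset.sum_congr rfl
      intro j _
      congr 1
      push_cast
      ring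
    · congr 1
      push_cast
      ring
  linarith

lemma shift_le (F : ℤ → ℝ) (hF : ∀ x, 0 ≤ F x) (p q c p' q' : ℤ) (h1 : p' ≤ p + c)
    (h2 : q + c ≤ q') : ∑ x ∈ Icc p q, F (x + c) ≤ ∑ x ∈ Icc p' q', F x := by
  have hinj : Set.InjOn (fun w : ℤ => w + c) (Icc p q : Finset ℤ) := fun a _ b _ hab => by
    have : a + c = b + c := hab
    omega
  rw [← Finset.sum_image (f := F) (g := fun w : ℤ => w + c) hinj]
  refine Finset.sum_le_sum_of_subset_of_nonneg ?_ (fun x _ _ => hF x)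
  intro x hx
  obtain ⟨w, hw, rfl⟩ := Finset.mem_image.mp hx
  rw [mem_Icc] at hw ⊢
  constructor <;> linarith [hw.1, hw.2]

lemma pd_le (f : ℤ → ℝ) (u v : ℤ) (k d : ℕ) (a : ℝ) (ha : 2 ≤ a)
    (hf : ∀ x, u ≤ x → x ≤ v → f x = 1 ∨ f x = -1) :
    pd f u v k d ≤ 2 * Bd f u v k d a := by
  have h1 : ∀ x ∈ Icc u (v - (k : ℤ) * d), ne f ((k : ℤ) * d) x ≤
      bad f k d a x + bad f k d a (x + d) := by
    intro x hx
    rw [mem_Icc] at hx
    by_cases he : f x = f (x + (k : ℤ) * d)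
    · have : ne f ((k : ℤ) * d) x = 0 := by
        unfold ne
        rw [if_pos he]
      rw [this]
      exact add_nonneg (bad_nonneg _ _ _ _ _) (bad_nonneg _ _ _ _ _)
    · have h2 : bad f k d a x = 1 ∨ bad f k d a (x + d) = 1 := by
        by_contra hc
        push Not at hc
        have h3 : |S f d k x| = a := by
          by_contra hne
          apply hc.1
          unfold bad
          rw [if_neg hne]
        have h4 : |S f d k (x + d)| = a := by
          by_contra hne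
          apply hc.2
          unfold bad
          rw [if_neg hne]
        have h5 := S_succ f d k x
        have hkd : (0 : ℤ) ≤ (k : ℤ) * d := by positivity
        have h6 := hf x (by linarith [hx.1]) (by linarith [hx.2])
        have h7 := hf (x + (k : ℤ) * d) (by linarith [hx.1]) (by linarith [hx.2])
        have ha' : (a = S f d k x ∨ a = - S f d k x) := by
          rcases abs_choice (S f d k x) with h | h
          · left; rw [← h3, h]
          · right; rw [← h3, h]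
        have hb' : (a = S f d k (x + d) ∨ a = - S f d k (x + d)) := by
          rcases abs_choice (S f d k (x + d)) with h | h
          · left; rw [← h4, h]
          · right; rw [← h4, h]
        have h8 : f (x + (k : ℤ) * d) - f x ≠ 0 := by
          intro h0
          apply he
          linarith
        rcases ha' with h9 | h9 <;> rcases hb' with h10 | h10 <;>
          rcases h6 with h11 | h11 <;> rcases h7 with h12 | h12 <;>
          first
            | (exfalso; apply h8; rw [h11, h12]; norm_num; done)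
            | (exfalso; apply h8; linarith)
      have h13 := ne_le_one f ((k : ℤ) * d) x
      have h14 := bad_nonneg f k d a x
      have h15 := bad_nonneg f k d a (x + d)
      rcases h2 with h | h <;> linarith
  unfold pd
  refine (Finset.sum_le_sum h1).trans ?_
  rw [Finset.sum_add_distrib]
  have h2 : ∑ x ∈ Icc u (v - (k : ℤ) * d), bad f k d a x ≤ Bd f u v k d a := by
    unfold Bd
    apply Finset.sum_le_sum_of_subset_of_nonneg
    · apply Finset.Icc_subset_Icc le_rfl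
      have : (0 : ℤ) ≤ d := by positivity
      linarith
    · intro x _ _
      exact bad_nonneg _ _ _ _ _
  have h3 : ∑ x ∈ Icc u (v - (k : ℤ) * d), bad f k d a (x + d) ≤ Bd f u v k d a := by
    unfold Bd
    apply shift_le _ (bad_nonneg f k d a)
    · have : (0 : ℤ) ≤ d := by positivity
      linarith
    · linarith
  linarith

lemma tri (f : ℤ → ℝ) (u v : ℤ) (k t n : ℕ) :
    pd f u v k t ≤ pd f u v k (n + t) + pd f u v k n + k * n := by
  have h1 : pd f u v k t ≤ ∑ x ∈ Icc u (v - (k : ℤ) * (n + t : ℕ)), ne f ((k : ℤ) * t) x +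
      ∑ x ∈ Ioc (v - (k : ℤ) * (n + t : ℕ)) (v - (k : ℤ) * t), ne f ((k : ℤ) * t) x := by
    unfold pd
    have hsub : Icc u (v - (k : ℤ) * t) ⊆ Icc u (v - (k : ℤ) * (n + t : ℕ)) ∪
        Ioc (v - (k : ℤ) * (n + t : ℕ)) (v - (k : ℤ) * t) := by
      intro x hx
      rw [mem_Icc] at hx
      rw [mem_union, mem_Icc, mem_Ioc]
      rcases le_or_gt x (v - (k : ℤ) * (n + t : ℕ)) with h | h
      · left
        exact ⟨hx.1, h⟩
      · right
        exact ⟨h, hx.2⟩
    refine (Finset.sum_le_sum_of_subset_of_nonneg hsub fun x _ _ => ne_nonneg _ _ _).trans ?_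
    rw [← Finset.sum_union_inter]
    have : 0 ≤ ∑ x ∈ Icc u (v - (k : ℤ) * (n + t : ℕ)) ∩
        Ioc (v - (k : ℤ) * (n + t : ℕ)) (v - (k : ℤ) * t), ne f ((k : ℤ) * t) x :=
      Finset.sum_nonneg fun x _ => ne_nonneg _ _ _
    linarith
  have h2 : ∑ x ∈ Ioc (v - (k : ℤ) * (n + t : ℕ)) (v - (k : ℤ) * t), ne f ((k : ℤ) * t) x ≤
      k * n := by
    refine (Finset.sum_le_card_nsmul _ _ 1 (fun x _ => ne_le_one _ _ _)).trans ?_
    rw [Int.card_Ioc, nsmul_eq_mul, mul_one]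
    have h3 : (v - (k : ℤ) * t) - (v - (k : ℤ) * (n + t : ℕ)) = ((k * n : ℕ) : ℤ) := by
      push_cast
      ring
    rw [h3, Int.toNat_natCast]
    push_cast
    exact le_rfl
  have h3 : ∑ x ∈ Icc u (v - (k : ℤ) * (n + t : ℕ)), ne f ((k : ℤ) * t) x ≤
      ∑ x ∈ Icc u (v - (k : ℤ) * (n + t : ℕ)), (ne f ((k : ℤ) * (n + t : ℕ)) x +
        ne f ((k : ℤ) * n) (x + (k : ℤ) * t)) := by
    apply Finset.sum_le_sum
    intro x _
    have e : x + (k : ℤ) * t + (k : ℤ) * n = x + (k : ℤ) * (n + t : ℕ) := by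
      push_cast
      ring
    unfold ne
    rw [e]
    by_cases ha : f x = f (x + (k : ℤ) * (n + t : ℕ))
    · by_cases hb : f (x + (k : ℤ) * t) = f (x + (k : ℤ) * (n + t : ℕ))
      · rw [if_pos (ha.trans hb.symm), if_pos ha, if_pos hb]
        norm_num
      · rw [if_neg hb]
        split_ifs <;> norm_num
    · rw [if_neg ha]
      split_ifs <;> norm_num
  have h4 : ∑ x ∈ Icc u (v - (k : ℤ) * (n + t : ℕ)), ne f ((k : ℤ) * n) (x + (k : ℤ) * t) ≤
      pd f u v k n := by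
    unfold pd
    apply shift_le _ (ne_nonneg f _)
    · have : (0 : ℤ) ≤ (k : ℤ) * t := by positivity
      linarith
    · apply le_of_eq
      push_cast
      ring
  rw [Finset.sum_add_distrib] at h3
  have h5 : pd f u v k (n + t) = ∑ x ∈ Icc u (v - (k : ℤ) * (n + t : ℕ)),
      ne f ((k : ℤ) * (n + t : ℕ)) x := rfl
  linarith

lemma gauss (M : ℕ) : ∑ n ∈ Icc 1 M, ((M : ℝ) + 1 - n) = (M : ℝ) * (M + 1) / 2 := by
  induction M with
  | zero => simp
  | succ M ih =>
    rw [Finset.sum_Icc_succ_top (by omega)]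
    have : ∑ d ∈ Icc 1 M, (((M + 1 : ℕ) : ℝ) + 1 - d) =
        ∑ d ∈ Icc 1 M, (((M : ℝ) + 1 - d) + 1) := by
      apply Finset.sum_congr rfl
      intro d _
      push_cast
      ring
    rw [this, Finset.sum_add_distrib, ih, Finset.sum_const, Nat.card_Icc]
    simp only [nsmul_eq_mul, Nat.add_sub_cancel]
    push_cast
    ring

/-- weighted sum of the `pd` -/
noncomputable def WP (f : ℤ → ℝ) (u v : ℤ) (k D : ℕ) : ℝ :=
  ∑ d ∈ Icc 1 D, ((D : ℝ) + 1 - d) * pd f u v k d

lemma pd_bound (f : ℤ → ℝ) (u v : ℤ) (k D t : ℕ) (ht : t ≤ D) :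
    ((D : ℝ) - t) * ((D : ℝ) - t + 1) / 2 * (pd f u v k t - k * D) ≤ 2 * WP f u v k D := by
  have hDt : ((D - t : ℕ) : ℝ) = (D : ℝ) - t := by
    push_cast [ht]
    ring
  have h1 : ∀ n ∈ Icc 1 (D - t), (((D - t : ℕ) : ℝ) + 1 - n) * (pd f u v k t - k * D) ≤
      ((D : ℝ) + 1 - (n + t : ℕ)) * pd f u v k (n + t) + ((D : ℝ) + 1 - n) * pd f u v k n := by
    intro n hn
    rw [mem_Icc] at hn
    have hn' : (n : ℝ) ≤ D - t := by
      rw [← hDt]
      exact_mod_cast hn.2
    have hw : 0 ≤ ((D - t : ℕ) : ℝ) + 1 - n := by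
      rw [hDt]
      linarith
    have h2 := tri f u v k t n
    have ht0 : (0 : ℝ) ≤ t := by positivity
    have hk0 : (0 : ℝ) ≤ k := by positivity
    have h3 : (k : ℝ) * n ≤ k * D := mul_le_mul_of_nonneg_left (by linarith) hk0
    have h4 : (((D - t : ℕ) : ℝ) + 1 - n) * (pd f u v k t - k * D) ≤
        (((D - t : ℕ) : ℝ) + 1 - n) * (pd f u v k (n + t) + pd f u v k n) :=
      mul_le_mul_of_nonneg_left (by linarith) hw
    refine h4.trans ?_
    rw [mul_add]
    apply add_le_add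
    · apply le_of_eq
      rw [hDt]
      push_cast
      ring
    · apply mul_le_mul_of_nonneg_right _ (pd_nonneg _ _ _ _ _)
      rw [hDt]
      linarith
  have h2 := Finset.sum_le_sum h1
  rw [← Finset.sum_mul, gauss, Finset.sum_add_distrib, hDt] at h2
  refine h2.trans ?_
  have h3 : ∑ n ∈ Icc 1 (D - t), ((D : ℝ) + 1 - (n + t : ℕ)) * pd f u v k (n + t) ≤
      WP f u v k D := by
    have hinj : Set.InjOn (fun n : ℕ => n + t) (Icc 1 (D - t) : Finset ℕ) := fun a _ b _ hab => by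
      have : a + t = b + t := hab
      omega
    rw [← Finset.sum_image (f := fun d : ℕ => ((D : ℝ) + 1 - d) * pd f u v k d)
      (g := fun n : ℕ => n + t) hinj]
    unfold WP
    apply Finset.sum_le_sum_of_subset_of_nonneg
    · intro x hx
      obtain ⟨w, hw, rfl⟩ := Finset.mem_image.mp hx
      rw [mem_Icc] at hw ⊢
      omega
    · intro d hd _
      rw [mem_Icc] at hd
      have : (d : ℝ) ≤ D := by exact_mod_cast hd.2
      exact mul_nonneg (by linarith) (pd_nonneg _ _ _ _ _)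
  have h4 : ∑ n ∈ Icc 1 (D - t), ((D : ℝ) + 1 - n) * pd f u v k n ≤ WP f u v k D := by
    unfold WP
    apply Finset.sum_le_sum_of_subset_of_nonneg
    · apply Finset.Icc_subset_Icc le_rfl
      omega
    · intro d hd _
      rw [mem_Icc] at hd
      have : (d : ℝ) ≤ D := by exact_mod_cast hd.2
      exact mul_nonneg (by linarith) (pd_nonneg _ _ _ _ _)
  linarith

/-- the final sum of squares -/
lemma final_sq (f : ℤ → ℝ) (u v : ℤ) (k : ℕ) (P : ℝ)
    (hf : ∀ x, u ≤ x → x ≤ v → f x = 1 ∨ f x = -1)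
    (hP : ∀ t : ℕ, 1 ≤ t → t < k → pd f u v k t ≤ P) :
    ((k : ℝ) ^ 2) * ((Icc u (v - ((k : ℤ) - 1) * k)).card : ℝ) - 2 * (k * (k - 1)) * P ≤
      ∑ x ∈ Icc u (v - ((k : ℤ) - 1) * k), (S f k k x) ^ 2 := by
  set I := Icc u (v - ((k : ℤ) - 1) * k) with hI
  have h1 : ∑ x ∈ I, (S f k k x) ^ 2 =
      ∑ i ∈ range k, ∑ j ∈ range k, ∑ x ∈ I, f (x + (i : ℤ) * k) * f (x + (j : ℤ) * k) := by
    have : ∀ x ∈ I, (S f k k x) ^ 2 =
        ∑ i ∈ range k, ∑ j ∈ range k, f (x + (i : ℤ) * k) * f (x + (j : ℤ) * k) := by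
      intro x _
      unfold S
      rw [sq, Finset.sum_mul_sum]
    rw [Finset.sum_congr rfl this, Finset.sum_comm]
    apply Finset.sum_congr rfl
    intro i _
    rw [Finset.sum_comm]
  have key : ∀ i j : ℕ, i < j → j < k →
      (I.card : ℝ) - 2 * P ≤ ∑ x ∈ I, f (x + (i : ℤ) * k) * f (x + (j : ℤ) * k) := by
    intro i j hij hj
    have h2 : ∀ x ∈ I, 1 - 2 * ne f ((k : ℤ) * (j - i : ℕ)) (x + (i : ℤ) * k) ≤
        f (x + (i : ℤ) * k) * f (x + (j : ℤ) * k) := by
      intro x hx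
      rw [hI, mem_Icc] at hx
      have hj' : (j : ℤ) + 1 ≤ k := by exact_mod_cast hj
      have hij' : (i : ℤ) + 1 ≤ j := by exact_mod_cast hij
      have hi0 : (0 : ℤ) ≤ (i : ℤ) * k := by positivity
      have hj0 : (0 : ℤ) ≤ (j : ℤ) * k := by positivity
      have hk0 : (0 : ℤ) ≤ (k : ℤ) := by positivity
      have hjk : (j : ℤ) * k ≤ ((k : ℤ) - 1) * k := mul_le_mul_of_nonneg_right (by linarith) hk0
      have hik : (i : ℤ) * k ≤ (j : ℤ) * k := mul_le_mul_of_nonneg_right (by linarith) hk0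
      have e : x + (i : ℤ) * k + (k : ℤ) * (j - i : ℕ) = x + (j : ℤ) * k := by
        push_cast [hij.le]
        ring
      have h3 := hf (x + (i : ℤ) * k) (by linarith) (by linarith)
      have h4 := hf (x + (j : ℤ) * k) (by linarith) (by linarith)
      unfold ne
      rw [e]
      rcases h3 with h5 | h5 <;> rcases h4 with h6 | h6 <;> rw [h5, h6] <;> norm_num
    have h3 := Finset.sum_le_sum h2
    rw [Finset.sum_sub_distrib, Finset.sum_const, nsmul_eq_mul, mul_one, ← Finset.mul_sum] at h3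
    have h4 : ∑ x ∈ I, ne f ((k : ℤ) * (j - i : ℕ)) (x + (i : ℤ) * k) ≤ pd f u v k (j - i) := by
      unfold pd
      rw [hI]
      apply shift_le _ (ne_nonneg f _)
      · have : (0 : ℤ) ≤ (i : ℤ) * k := by positivity
        linarith
      · have hj' : (j : ℤ) + 1 ≤ k := by exact_mod_cast hj
        push_cast [hij.le]
        nlinarith [(by positivity : (0 : ℤ) ≤ (k : ℤ))]
    have h5 := hP (j - i) (by omega) (by omega)
    linarith
  have key0 : ∀ i : ℕ, i < k →
      (I.card : ℝ) = ∑ x ∈ I, f (x + (i : ℤ) * k) * f (x + (i : ℤ) * k) := by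
    intro i hi
    have h2 : ∀ x ∈ I, f (x + (i : ℤ) * k) * f (x + (i : ℤ) * k) = 1 := by
      intro x hx
      rw [hI, mem_Icc] at hx
      have hi' : (i : ℤ) + 1 ≤ k := by exact_mod_cast hi
      have hi0 : (0 : ℤ) ≤ (i : ℤ) * k := by positivity
      have hk0 : (0 : ℤ) ≤ (k : ℤ) := by positivity
      have hik : (i : ℤ) * k ≤ ((k : ℤ) - 1) * k := mul_le_mul_of_nonneg_right (by linarith) hk0
      rcases hf (x + (i : ℤ) * k) (by linarith) (by linarith) with h | h <;> rw [h] <;> norm_num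
    rw [Finset.sum_congr rfl h2]
    simp
  have h2 : ∀ i ∈ range k, ∀ j ∈ range k, (I.card : ℝ) - 2 * (if i = j then 0 else P) ≤
      ∑ x ∈ I, f (x + (i : ℤ) * k) * f (x + (j : ℤ) * k) := by
    intro i hi j hj
    rw [mem_range] at hi hj
    rcases lt_trichotomy i j with h | h | h
    · rw [if_neg (by omega)]
      exact key i j h hj
    · rw [if_pos h, ← h, ← key0 i hi]
      linarith
    · rw [if_neg (by omega)]
      have := key j i h hi
      refine this.trans (le_of_eq ?_)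
      apply Finset.sum_congr rfl
      intro x _
      ring
  have h3 := Finset.sum_le_sum fun i hi => Finset.sum_le_sum fun j hj => h2 i hi j hj
  rw [← h1] at h3
  refine le_trans (le_of_eq ?_) h3
  have h4 : ∀ i ∈ range k, ∑ j ∈ range k, ((I.card : ℝ) - 2 * (if i = j then 0 else P)) =
      k * (I.card : ℝ) - 2 * ((k - 1) * P) := by
    intro i hi
    rw [Finset.sum_sub_distrib, Finset.sum_const, card_range, nsmul_eq_mul, ← Finset.mul_sum]
    congr 2
    have : ∀ j ∈ range k, (if i = j then 0 else P) = P - (if i = j then P else 0) := by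
      intro j _
      split_ifs <;> ring
    rw [Finset.sum_congr rfl this, Finset.sum_sub_distrib, Finset.sum_const, card_range,
      nsmul_eq_mul, Finset.sum_ite_eq, if_pos hi]
    ring
  rw [Finset.sum_congr rfl h4, Finset.sum_const, card_range, nsmul_eq_mul]
  ring

/-- inside part with the gap -/
lemma inside (f : ℤ → ℝ) (u v : ℤ) (k d : ℕ) (a : ℝ) (ha : 2 ≤ a) (hk : 1 ≤ k) (huv : u ≤ v + 1)
    (hgap : ∀ x : ℤ, u ≤ x → x + ((k : ℤ) - 1) * d ≤ v →
      |S f d k x| = a ∨ |S f d k x| ≤ a - 2) :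
    ∑ x ∈ Icc u (v - ((k : ℤ) - 1) * d), (S f d k x) ^ 2 ≤
      a ^ 2 * ((v : ℝ) - u + 1) - (4 * a - 4) * Bd f u v k d a := by
  have h1 : ∀ x ∈ Icc u (v - ((k : ℤ) - 1) * d),
      (S f d k x) ^ 2 ≤ a ^ 2 - (4 * a - 4) * bad f k d a x := by
    intro x hx
    rw [mem_Icc] at hx
    unfold bad
    rw [← sq_abs]
    by_cases h : |S f d k x| = a
    · rw [if_pos h, h]
      linarith
    · rw [if_neg h]
      have h2 : |S f d k x| ≤ a - 2 := (hgap x hx.1 (by linarith [hx.2])).resolve_left h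
      have h3 := abs_nonneg (S f d k x)
      nlinarith
  refine (Finset.sum_le_sum h1).trans ?_
  rw [Finset.sum_sub_distrib, Finset.sum_const, nsmul_eq_mul, ← Finset.mul_sum]
  have h2 : ((Icc u (v - ((k : ℤ) - 1) * d)).card : ℝ) ≤ (v : ℝ) - u + 1 := by
    rw [Int.card_Icc]
    have h3 : ((v - ((k : ℤ) - 1) * d + 1 - u).toNat : ℤ) ≤ v - u + 1 := by
      have hk' : (0 : ℤ) ≤ (k : ℤ) - 1 := by
        have : (1 : ℤ) ≤ k := by exact_mod_cast hk
        linarith
      have hkd : (0 : ℤ) ≤ ((k : ℤ) - 1) * d := mul_nonneg hk' (by positivity)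
      generalize ((k : ℤ) - 1) * d = X at hkd
      omega
    exact_mod_cast h3
  have h3 : ((Icc u (v - ((k : ℤ) - 1) * d)).card : ℝ) * a ^ 2 ≤ ((v : ℝ) - u + 1) * a ^ 2 :=
    mul_le_mul_of_nonneg_right h2 (by positivity)
  unfold Bd
  linarith

end BEY_

open AVG_ BEY_

/-- No sign function on `[1, 16 V]` has all its `k`-term sums equal to `± a` or at most `a - 2` in
absolute value, if `a ^ 2 ≤ k + 0.11 √k`, `a ^ 2 ≥ 0.75 k`, `a ≥ 2` and `V` is large. -/
theorem bey (hC : Stmt_CMP) (hDE : Stmt_DEC) (hL : Stmt_LFT) (hR : Stmt_RGT) (hF : Stmt_FEJ)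
    (k D V : ℕ) (a r : ℝ) (f : ℤ → ℝ) (hk : 4 ≤ k) (hr2 : 2 ≤ r) (hr : r ^ 2 = k) (ha2 : 2 ≤ a)
    (hlow : 0.75 * (k : ℝ) ≤ a ^ 2) (hup : a ^ 2 ≤ k + 0.11 * r)
    (hDl : 40 * k * r ≤ D) (hVl : 38400 * k * r * (k + 1.1 * D) ≤ V)
    (hf : ∀ x : ℤ, 1 ≤ x → x ≤ ((16 * V : ℕ) : ℤ) → f x = 1 ∨ f x = -1)
    (hgap : ∀ (x : ℤ) (d : ℕ), 1 ≤ d → 1 ≤ x → x + ((k : ℤ) - 1) * d ≤ ((16 * V : ℕ) : ℤ) →
      |S f d k x| = a ∨ |S f d k x| ≤ a - 2) : False := by
  have hkr : (4 : ℝ) ≤ k := by exact_mod_cast hk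
  have hDr : (320 : ℝ) ≤ D := by nlinarith
  have hD1 : 1 ≤ D := by
    have : (1 : ℝ) ≤ D := by linarith
    exact_mod_cast this
  have hkD : (0 : ℝ) ≤ (k : ℝ) * D := by positivity
  have hVk : 84480 * ((k : ℝ) * D) ≤ V := by
    have h0 : 38400 * (k : ℝ) * 2 ≤ 38400 * (k : ℝ) * r :=
      mul_le_mul_of_nonneg_left hr2 (by positivity)
    have h1 : 38400 * k * 2 * (1.1 * D) ≤ 38400 * k * r * (k + 1.1 * D) :=
      mul_le_mul h0 (by linarith) (by positivity) (by positivity)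
    linarith
  have hctx : Ctx k D V (a ^ 2) f :=
    { hk := by omega
      hD := hD1
      hs0 := sq_nonneg a
      hV := by
        have : ((120 * k * D : ℕ) : ℝ) ≤ V := by
          push_cast
          linarith
        exact_mod_cast this
      hf := by
        intro x h1 h2
        rcases hf x h1 h2 with h | h <;> rw [h] <;> norm_num
      hS := by
        intro x d h1 h2 h3
        rw [← sq_abs]
        have h0 := abs_nonneg (S f d k x)
        rcases hgap x d h1 h2 h3 with h | h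
        · rw [h]
        · nlinarith }
  obtain ⟨u, hu, hH0⟩ := avg hC hDE hL hR hctx
  have hu' := Finset.mem_Icc.mp hu
  set H := ∑ m ∈ Icc 1 (k - 1), ∑ d ∈ Icc 1 D, LR f (16 * V) u d m with hHdef
  have hH00 : 0 ≤ H := Finset.sum_nonneg fun m _ => Finset.sum_nonneg fun d _ =>
    LR_nonneg _ _ _ _ _
  have hV1 : 1 ≤ V := by
    have : (1 : ℝ) ≤ V := by nlinarith
    exact_mod_cast this
  have hu1 : 1 ≤ u := by omega
  have huI : u ∈ Icc 1 (4 * V) := by rw [Finset.mem_Icc]; omega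
  set v : ℤ := ((16 * V : ℕ) : ℤ) + 1 - u with hv
  set n : ℝ := ((16 * V : ℕ) : ℝ) + 2 - 2 * u with hn
  have hnv : (v : ℝ) - ((u : ℤ) : ℝ) + 1 = n := by
    rw [hv, hn]
    push_cast
    ring
  have hn8 : 8 * (V : ℝ) ≤ n := by
    have : (u : ℝ) ≤ 4 * V - 1 := by
      have h3 : u + 1 ≤ 4 * V := by omega
      have : ((u + 1 : ℕ) : ℝ) ≤ ((4 * V : ℕ) : ℝ) := by exact_mod_cast h3
      push_cast at this
      linarith
    rw [hn]
    push_cast
    linarith
  have hfI : ∀ x : ℤ, (u : ℤ) ≤ x → x ≤ v → f x = 1 ∨ f x = -1 := by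
    intro x h1 h2
    apply hf x <;> omega
  have hgI : ∀ (d : ℕ), 1 ≤ d → ∀ x : ℤ, (u : ℤ) ≤ x → x + ((k : ℤ) - 1) * d ≤ v →
      |S f d k x| = a ∨ |S f d k x| ≤ a - 2 := by
    intro d hd x h1 h2
    apply hgap x d hd <;> omega
  -- the Fejer inequality
  have h1 := hF (LL k D V) (16 * V) k D (gc f (16 * V) u) (gc_box f _ u hu1) (by
    unfold LL
    have : k * (D + 1) ≤ k * (2 * D + 1) := Nat.mul_le_mul_left k (by omega)
    omega)
  rw [gc_norm f (16 * V) u hu1 (by omega) hctx.hf] at h1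
  set WB := ∑ d ∈ Icc 1 D, ((D : ℝ) + 1 - d) * Bd f u v k d a with hWB
  have h2 : ∑ d ∈ Icc 1 D, ((D : ℝ) + 1 - d) * En (LL k D V) (gc f (16 * V) u) d k ≤
      ∑ d ∈ Icc 1 D, (((D : ℝ) + 1 - d) * (a ^ 2 * n) -
        (4 * a - 4) * (((D : ℝ) + 1 - d) * Bd f u v k d a) +
        ((D : ℝ) + 1) * ∑ m ∈ Icc 1 (k - 1), LR f (16 * V) u d m) := by
    apply Finset.sum_le_sum
    intro d hd
    have hd' := Finset.mem_Icc.mp hd
    have hdr : (d : ℝ) ≤ D := by exact_mod_cast hd'.2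
    have hd0 : (0 : ℝ) ≤ d := by positivity
    have hkd := kd_le hctx hd'.2
    have hkd' : (120 * ((k : ℤ) * d)) ≤ V := by exact_mod_cast hkd
    have h3 := dec2_proof (LL k D V) k d (u : ℤ) v f hd'.1 (by omega) (by
      rw [hv]
      push_cast
      omega)
    have h4 := inside f u v k d a ha2 (by omega) (by omega) (hgI d hd'.1)
    rw [hnv] at h4
    have h5 : 0 ≤ ∑ m ∈ Icc 1 (k - 1), LR f (16 * V) u d m :=
      Finset.sum_nonneg fun m _ => LR_nonneg _ _ _ _ _
    have h6 : En (LL k D V) (gc f (16 * V) u) d k ≤ (a ^ 2 * n - (4 * a - 4) * Bd f u v k d a) +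
        ∑ m ∈ Icc 1 (k - 1), LR f (16 * V) u d m := by
      refine h3.trans ?_
      have : ∑ m ∈ Icc 1 (k - 1), (Lf f u d m + Rt f v d m) =
          ∑ m ∈ Icc 1 (k - 1), LR f (16 * V) u d m := rfl
      linarith
    have h7 : ((D : ℝ) + 1 - d) * En (LL k D V) (gc f (16 * V) u) d k ≤
        ((D : ℝ) + 1 - d) * ((a ^ 2 * n - (4 * a - 4) * Bd f u v k d a) +
          ∑ m ∈ Icc 1 (k - 1), LR f (16 * V) u d m) :=
      mul_le_mul_of_nonneg_left h6 (by linarith)
    have h8 : ((D : ℝ) + 1 - d) * ∑ m ∈ Icc 1 (k - 1), LR f (16 * V) u d m ≤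
        ((D : ℝ) + 1) * ∑ m ∈ Icc 1 (k - 1), LR f (16 * V) u d m :=
      mul_le_mul_of_nonneg_right (by linarith) h5
    linarith
  have h4 : ∑ d ∈ Icc 1 D, (((D : ℝ) + 1 - d) * (a ^ 2 * n) -
        (4 * a - 4) * (((D : ℝ) + 1 - d) * Bd f u v k d a) +
        ((D : ℝ) + 1) * ∑ m ∈ Icc 1 (k - 1), LR f (16 * V) u d m) =
      (D : ℝ) * (D + 1) / 2 * (a ^ 2 * n) - (4 * a - 4) * WB + ((D : ℝ) + 1) * H := by
    rw [Finset.sum_add_distrib, Finset.sum_sub_distrib, ← Finset.sum_mul, gauss,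
      ← Finset.mul_sum, ← Finset.mul_sum, hHdef, hWB]
    congr 2
    exact Finset.sum_comm
  rw [h4] at h2
  -- (I1)
  have hI1 : (8 * a - 8) * WB ≤ ((D : ℝ) + 1) *
      (n * (D * (a ^ 2 - k) + k * (k - 1)) + 2 * H) := by
    have e : ((D : ℝ) + 1) * k * ((D : ℝ) + 1 - k) * n ≤
        2 * ((D : ℝ) * (D + 1) / 2 * (a ^ 2 * n) - (4 * a - 4) * WB + ((D : ℝ) + 1) * H) := by
      refine h1.trans ?_
      linarith
    linarith
  have hr0 : 0 < r := by linarith
  have hk2 : (k : ℝ) ^ 2 ≤ 0.025 * (D * r) := by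
    have : 40 * k * r * r ≤ D * r := mul_le_mul_of_nonneg_right hDl hr0.le
    have e : 40 * (k : ℝ) * r * r = 40 * (k : ℝ) ^ 2 := by
      rw [← hr]
      ring
    rw [e] at this
    linarith
  have hrk : 2 * r ≤ k := by
    rw [← hr]
    nlinarith
  have hH2 : 2 * H ≤ 0.025 * (D * r) * n := by
    have h5 : H ≤ 3840 * D * (k : ℝ) * ((k : ℝ) ^ 2 + D * a ^ 2) := hH0
    have h6 : (k : ℝ) ^ 2 + D * a ^ 2 ≤ k * (k + 1.1 * D) := by
      have : a ^ 2 ≤ 1.1 * k := by linarith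
      have := mul_le_mul_of_nonneg_left this (by positivity : (0 : ℝ) ≤ D)
      linarith
    have h7 : 2 * H ≤ 7680 * D * (k : ℝ) * (k * (k + 1.1 * D)) := by
      have : 3840 * D * (k : ℝ) * ((k : ℝ) ^ 2 + D * a ^ 2) ≤
          3840 * D * (k : ℝ) * (k * (k + 1.1 * D)) := mul_le_mul_of_nonneg_left h6 (by positivity)
      linarith
    have h8 : 7680 * D * (k : ℝ) * (k * (k + 1.1 * D)) =
        0.2 * (D * r) * (38400 * k * r * (k + 1.1 * D)) := by
      have : (k : ℝ) * (k : ℝ) = k * r * r := by rw [← hr]; ring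
      calc 7680 * D * (k : ℝ) * (k * (k + 1.1 * D)) = 7680 * D * ((k : ℝ) * (k : ℝ)) *
            (k + 1.1 * D) := by ring
        _ = 0.2 * (D * r) * (38400 * k * r * (k + 1.1 * D)) := by
            rw [this]
            ring
    have h9 : 0.2 * (D * r) * (38400 * k * r * (k + 1.1 * D)) ≤ 0.2 * (D * r) * V :=
      mul_le_mul_of_nonneg_left hVl (by positivity)
    have h10 : 0.2 * (D * r) * V ≤ 0.2 * (D * r) * (n / 8) :=
      mul_le_mul_of_nonneg_left (by linarith) (by positivity)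
    calc 2 * H ≤ 0.2 * (D * r) * (n / 8) := by linarith
      _ = 0.025 * (D * r) * n := by ring
  have hn0 : 0 < n := by
    have : (1 : ℝ) ≤ V := by exact_mod_cast hV1
    linarith
  have hWB0 : 0 ≤ WB := by
    rw [hWB]
    apply Finset.sum_nonneg
    intro d hd
    rw [mem_Icc] at hd
    have : (d : ℝ) ≤ D := by exact_mod_cast hd.2
    exact mul_nonneg (by linarith) (Bd_nonneg _ _ _ _ _ _)
  have ha86 : 0.86 * r ≤ a := by
    by_contra hc
    push Not at hc
    nlinarith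
  have hWB1 : WB ≤ 0.0466 * (D * (D + 1) * n) := by
    have h5 : (8 * a - 8) * WB ≥ 3.44 * r * WB :=
      mul_le_mul_of_nonneg_right (by linarith) hWB0
    have h6 : n * (D * (a ^ 2 - k) + k * (k - 1)) + 2 * H ≤ 0.16 * (D * r) * n := by
      have h7 : D * (a ^ 2 - k) + k * (k - 1) ≤ 0.135 * (D * r) := by
        have : D * (a ^ 2 - k) ≤ D * (0.11 * r) :=
          mul_le_mul_of_nonneg_left (by linarith) (by positivity)
        nlinarith
      have := mul_le_mul_of_nonneg_left h7 hn0.le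
      linarith
    have h7 : ((D : ℝ) + 1) * (n * (D * (a ^ 2 - k) + k * (k - 1)) + 2 * H) ≤
        ((D : ℝ) + 1) * (0.16 * (D * r) * n) := mul_le_mul_of_nonneg_left h6 (by positivity)
    have h8 : r * (3.44 * WB) ≤ r * (0.16 * (D * (D + 1) * n)) := by
      calc r * (3.44 * WB) = 3.44 * r * WB := by ring
        _ ≤ ((D : ℝ) + 1) * (0.16 * (D * r) * n) := by linarith
        _ = r * (0.16 * (D * (D + 1) * n)) := by ring
    have h9 := le_of_mul_le_mul_left h8 hr0
    have h10 : (0 : ℝ) ≤ D * (D + 1) * n := by positivity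
    linarith
  -- (I2)
  have hI2 : WP f u v k D ≤ 2 * WB := by
    rw [hWB, Finset.mul_sum]
    unfold WP
    apply Finset.sum_le_sum
    intro d hd
    rw [mem_Icc] at hd
    have : (d : ℝ) ≤ D := by exact_mod_cast hd.2
    have h5 := mul_le_mul_of_nonneg_left (pd_le f u v k d a ha2 hfI)
      (by linarith : (0 : ℝ) ≤ (D : ℝ) + 1 - d)
    linarith
  -- (I3)
  have hI3 : ∀ t : ℕ, 1 ≤ t → t < k → pd f u v k t ≤ k * D + 0.383 * n := by
    intro t _ ht
    have htr : (t : ℝ) ≤ k := by exact_mod_cast ht.le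
    have hkD80 : 80 * (k : ℝ) ≤ D := by nlinarith
    have htD : t ≤ D := by
      have : (t : ℝ) ≤ D := by linarith
      exact_mod_cast this
    have h5 := pd_bound f u v k D t htD
    by_contra hc
    push Not at hc
    have h6 : 0.383 * n ≤ pd f u v k t - k * D := by linarith
    have h7 : 0.4875 * (D * (D + 1)) ≤ ((D : ℝ) - t) * ((D : ℝ) - t + 1) / 2 := by
      have h8 : 79 / 80 * (D : ℝ) ≤ D - t := by linarith
      have h9 : 79 / 80 * ((D : ℝ) + 1) ≤ D - t + 1 := by linarith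
      have h10 : (79 / 80 * (D : ℝ)) * (79 / 80 * ((D : ℝ) + 1)) ≤ (D - t) * (D - t + 1) :=
        mul_le_mul h8 h9 (by positivity) (by linarith)
      nlinarith
    have h8 : 0.4875 * (D * (D + 1)) * (0.383 * n) ≤ 2 * (2 * (0.0466 * (D * (D + 1) * n))) := by
      calc 0.4875 * (D * (D + 1)) * (0.383 * n)
          ≤ ((D : ℝ) - t) * ((D : ℝ) - t + 1) / 2 * (pd f u v k t - k * D) :=
            mul_le_mul h7 h6 (by positivity) (le_trans (by positivity) h7)
        _ ≤ 2 * WP f u v k D := h5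
        _ ≤ 2 * (2 * (0.0466 * (D * (D + 1) * n))) := by linarith
    have h9 : 0 < D * (D + 1) * n := by positivity
    nlinarith
  -- (I4)
  have hV2 : (k : ℝ) ^ 2 + k * D ≤ V / 1000 := by nlinarith
  have h5 := final_sq f u v k (k * D + 0.383 * n) hfI hI3
  have h6 : ∑ x ∈ Icc (u : ℤ) (v - ((k : ℤ) - 1) * k), (S f k k x) ^ 2 ≤
      a ^ 2 * ((Icc (u : ℤ) (v - ((k : ℤ) - 1) * k)).card : ℝ) := by
    refine (Finset.sum_le_card_nsmul _ _ (a ^ 2) ?_).trans ?_
    · intro x hx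
      rw [mem_Icc] at hx
      rw [← sq_abs]
      have h0 := abs_nonneg (S f k k x)
      rcases hgI k (by omega) x hx.1 (by linarith [hx.2]) with h | h
      · rw [h]
      · nlinarith
    · rw [nsmul_eq_mul]
      linarith
  have hX : n - (k : ℝ) ^ 2 ≤ ((Icc (u : ℤ) (v - ((k : ℤ) - 1) * k)).card : ℝ) := by
    rw [Int.card_Icc]
    have h7 : v - ((k : ℤ) - 1) * k + 1 - u ≤ ((v - ((k : ℤ) - 1) * k + 1 - u).toNat : ℤ) :=
      Int.self_le_toNat _
    have h8 : ((v - ((k : ℤ) - 1) * k + 1 - u : ℤ) : ℝ) ≤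
        (((v - ((k : ℤ) - 1) * k + 1 - u).toNat : ℤ) : ℝ) := by exact_mod_cast h7
    have h9 : ((v - ((k : ℤ) - 1) * k + 1 - u : ℤ) : ℝ) = n - (k - 1) * k := by
      push_cast
      rw [← hnv]
      push_cast
      ring
    rw [h9] at h8
    have h10 : (((v - ((k : ℤ) - 1) * k + 1 - u).toNat : ℤ) : ℝ) =
        ((v - ((k : ℤ) - 1) * k + 1 - u).toNat : ℝ) := by norm_cast
    rw [h10] at h8
    nlinarith
  set X := ((Icc (u : ℤ) (v - ((k : ℤ) - 1) * k)).card : ℝ)
  have hX0 : 0 ≤ X := by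
    have : (k : ℝ) ^ 2 ≤ n := by nlinarith
    linarith
  have h7 : ((k : ℝ) ^ 2 - a ^ 2) * X ≤ 2 * (k * (k - 1)) * (k * D + 0.383 * n) := by linarith
  have h8 : 0.98 * ((k : ℝ) * (k - 1)) ≤ (k : ℝ) ^ 2 - a ^ 2 := by nlinarith
  have h9 : 0.98 * ((k : ℝ) * (k - 1)) * X ≤ 2 * (k * (k - 1)) * (k * D + 0.383 * n) :=
    (mul_le_mul_of_nonneg_right h8 hX0).trans h7
  have hkk : 0 < (k : ℝ) * (k - 1) := by
    apply mul_pos <;> linarith
  have h10 : 0.98 * X ≤ 2 * (k * D + 0.383 * n) := by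
    have : ((k : ℝ) * (k - 1)) * (0.98 * X) ≤ ((k : ℝ) * (k - 1)) * (2 * (k * D + 0.383 * n)) := by
      linarith
    exact le_of_mul_le_mul_left this hkk
  linarith

end Pool.Agent.APD
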