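import Pool.Agent.APD.Stmts

namespace Pool.Agent.APD

open Finset

namespace CMP_

lemma cont_Dk (m : ℕ) (c : ℝ) : Continuous fun θ : ℝ => Dk m (c * θ) := by
  unfold Dk
  fun_prop

lemma cont_hat (R : ℕ) (g : ℤ → ℝ) : Continuous fun θ : ℝ => hat R g θ := by
  unfold hat
  fun_prop

lemma box_mono {R L : ℕ} (h : R ≤ L) : box R ⊆ box L := by
  unfold box
  apply Finset.Icc_subset_Icc
  · have : (R : ℤ) ≤ L := by exact_mod_cast h
    omega
  · exact_mod_cast h

lemma Dk_one (φ : ℝ) : Dk 1 φ = 1 := by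
  simp [Dk]

end CMP_

open CMP_

theorem cmp_proof (hK : Stmt_KER) (hP : Stmt_PAR) : Stmt_CMP := by
  intro L R k m D g hk hmk hg hL
  have hRL : R ≤ L := le_trans (Nat.le_add_right _ _) hL
  have hpar : ∀ n d : ℕ, n ≤ k → d ≤ 2 * D + 1 →
      En L g d n = ∫ θ in (0 : ℝ)..1, ‖hat R g θ‖ ^ 2 * ‖Dk n ((d : ℝ) * θ)‖ ^ 2 := by
    intro n d hn hd
    apply hP L R d n g hg
    have : n * d ≤ k * (2 * D + 1) := Nat.mul_le_mul hn hd
    omega
  have h0 : ∑ x ∈ box R, (g x) ^ 2 = ∫ θ in (0 : ℝ)..1, ‖hat R g θ‖ ^ 2 := by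
    have h1 := hpar 1 0 hk (Nat.zero_le _)
    have h2 : En L g (0 : ℕ) 1 = ∑ x ∈ box R, (g x) ^ 2 := by
      unfold En S
      simp only [Finset.range_one, Finset.sum_singleton, Nat.cast_zero, mul_zero, add_zero]
      symm
      apply Finset.sum_subset (box_mono hRL)
      intro x _ hx
      rw [hg x hx]
      simp
    rw [← h2, h1]
    apply intervalIntegral.integral_congr
    intro θ _
    simp only [Dk_one]
    simp
  have hcont : ∀ (n : ℕ) (d : ℕ), Continuous fun θ : ℝ => ‖hat R g θ‖ ^ 2 * ‖Dk n ((d : ℝ) * θ)‖ ^ 2 := by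
    intro n d
    exact ((cont_hat R g).norm.pow 2).mul ((cont_Dk n d).norm.pow 2)
  have hl : ∑ d ∈ Icc 1 (2 * D + 1), En L g d m =
      ∫ θ in (0 : ℝ)..1, ∑ d ∈ Icc 1 (2 * D + 1), ‖hat R g θ‖ ^ 2 * ‖Dk m ((d : ℝ) * θ)‖ ^ 2 := by
    rw [intervalIntegral.integral_finsetSum]
    · apply Finset.sum_congr rfl
      intro d hd
      exact hpar m d hmk (Finset.mem_Icc.mp hd).2
    · intro d _
      exact (hcont m d).intervalIntegrable 0 1
  have hr : 30 * ((k : ℝ) ^ 2 * ∑ x ∈ box R, (g x) ^ 2 + ∑ d ∈ Icc 1 D, En L g d k) =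
      ∫ θ in (0 : ℝ)..1, 30 * ((k : ℝ) ^ 2 * ‖hat R g θ‖ ^ 2 +
        ∑ d ∈ Icc 1 D, ‖hat R g θ‖ ^ 2 * ‖Dk k ((d : ℝ) * θ)‖ ^ 2) := by
    rw [intervalIntegral.integral_const_mul, intervalIntegral.integral_add,
      intervalIntegral.integral_const_mul, intervalIntegral.integral_finsetSum, h0]
    · congr 2
      apply Finset.sum_congr rfl
      intro d hd
      exact hpar k d le_rfl (by have := (Finset.mem_Icc.mp hd).2; omega)
    · intro d _
      exact (hcont k d).intervalIntegrable 0 1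
    · exact (continuous_const.mul ((cont_hat R g).norm.pow 2)).intervalIntegrable 0 1
    · apply Continuous.intervalIntegrable
      exact continuous_finset_sum _ fun d _ => hcont k d
  rw [hl, hr]
  apply intervalIntegral.integral_mono_on (by norm_num)
  · apply Continuous.intervalIntegrable
    exact continuous_finset_sum _ fun d _ => hcont m d
  · apply Continuous.intervalIntegrable
    apply continuous_const.mul
    exact (continuous_const.mul ((cont_hat R g).norm.pow 2)).add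
      (continuous_finset_sum _ fun d _ => hcont k d)
  · intro θ _
    have h := hK k m D θ hk hmk
    have hn : 0 ≤ ‖hat R g θ‖ ^ 2 := by positivity
    calc ∑ d ∈ Icc 1 (2 * D + 1), ‖hat R g θ‖ ^ 2 * ‖Dk m ((d : ℝ) * θ)‖ ^ 2
        = ‖hat R g θ‖ ^ 2 * ∑ d ∈ Icc 1 (2 * D + 1), ‖Dk m ((d : ℝ) * θ)‖ ^ 2 := by
          rw [Finset.mul_sum]
      _ ≤ ‖hat R g θ‖ ^ 2 * (30 * ((k : ℝ) ^ 2 + ∑ d ∈ Icc 1 D, ‖Dk k ((d : ℝ) * θ)‖ ^ 2)) :=
          mul_le_mul_of_nonneg_left h hn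
      _ = _ := by
          rw [← Finset.mul_sum]
          ring

end Pool.Agent.APD
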