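import Pool.Agent.APD.Stmts

/-!
# APD, module DEC: the energy of a cut function
-/

set_option autoImplicit false

namespace Pool.Agent.APD

open Finset

namespace DEC_

theorem blkL (F : ℤ → ℝ) (u : ℤ) (d : ℕ) (n : ℕ) :
    ∑ x ∈ Ico (u - (n : ℤ) * d) u, F x
      = ∑ i ∈ range n, ∑ a ∈ Ico u (u + d), F (a - ((i : ℤ) + 1) * d) := by
  induction n with
  | zero => simp
  | succ n ih =>
    rw [sum_range_succ, ← ih]
    have h1 : Ico (u - ((n + 1 : ℕ) : ℤ) * d) u
        = Ico (u - ((n + 1 : ℕ) : ℤ) * d) (u - (n : ℤ) * d) ∪ Ico (u - (n : ℤ) * d) u := by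
      rw [Ico_union_Ico_eq_Ico]
      · push_cast
        nlinarith [Int.natCast_nonneg d]
      · have : (0 : ℤ) ≤ (n : ℤ) * d := by positivity
        linarith
    have h2 : Disjoint (Ico (u - ((n + 1 : ℕ) : ℤ) * d) (u - (n : ℤ) * d))
        (Ico (u - (n : ℤ) * d) u) := by
      rw [Finset.disjoint_left]
      intro x hx hx'
      rw [mem_Ico] at hx hx'
      linarith [hx.2, hx'.1]
    rw [h1, sum_union h2, add_comm]
    congr 1
    refine sum_nbij' (fun x => x + ((n : ℤ) + 1) * d) (fun a => a - ((n : ℤ) + 1) * d) ?_ ?_ ?_ ?_ ?_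
    · intro x hx
      rw [mem_Ico] at hx ⊢
      push_cast at hx
      constructor
      · linarith [hx.1]
      · nlinarith [hx.2]
    · intro x hx
      rw [mem_Ico] at hx ⊢
      push_cast
      constructor
      · linarith [hx.1]
      · nlinarith [hx.2]
    · intro x _; ring
    · intro x _; ring
    · intro x _
      congr 1; ring

theorem blkR (F : ℤ → ℝ) (v : ℤ) (d : ℕ) (n : ℕ) :
    ∑ x ∈ Ioc (v - (n : ℤ) * d) v, F x
      = ∑ i ∈ range n, ∑ b ∈ Ioc (v - d) v, F (b - (i : ℤ) * d) := by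
  induction n with
  | zero => simp
  | succ n ih =>
    rw [sum_range_succ, ← ih]
    have h1 : Ioc (v - ((n + 1 : ℕ) : ℤ) * d) v
        = Ioc (v - ((n + 1 : ℕ) : ℤ) * d) (v - (n : ℤ) * d) ∪ Ioc (v - (n : ℤ) * d) v := by
      rw [Ioc_union_Ioc_eq_Ioc]
      · push_cast
        nlinarith [Int.natCast_nonneg d]
      · have : (0 : ℤ) ≤ (n : ℤ) * d := by positivity
        linarith
    have h2 : Disjoint (Ioc (v - ((n + 1 : ℕ) : ℤ) * d) (v - (n : ℤ) * d))
        (Ioc (v - (n : ℤ) * d) v) := by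
      rw [Finset.disjoint_left]
      intro x hx hx'
      rw [mem_Ioc] at hx hx'
      linarith [hx.2, hx'.1]
    rw [h1, sum_union h2, add_comm]
    congr 1
    refine sum_nbij' (fun x => x + (n : ℤ) * d) (fun a => a - (n : ℤ) * d) ?_ ?_ ?_ ?_ ?_
    · intro x hx
      rw [mem_Ioc] at hx ⊢
      push_cast at hx
      constructor
      · nlinarith [hx.1]
      · linarith [hx.2]
    · intro x hx
      rw [mem_Ioc] at hx ⊢
      push_cast
      constructor
      · nlinarith [hx.1]
      · linarith [hx.2]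
    · intro x _; ring
    · intro x _; ring
    · intro x _
      congr 1; ring

end DEC_

open DEC_ in
theorem dec_proof : Stmt_DEC := by
  intro L k d u v f s hd hk huv hs hs0
  set g := cut f u v with hg
  have hd' : (1 : ℤ) ≤ (d : ℤ) := by exact_mod_cast hd
  obtain ⟨n, rfl⟩ : ∃ n, k = n + 1 := ⟨k - 1, by omega⟩
  push_cast at huv
  have hnd : (0 : ℤ) ≤ (n : ℤ) * d := by positivity
  have hin : ∀ x, u ≤ x → x ≤ v → g x = f x := fun x h1 h2 => by
    rw [hg, cut, if_pos ⟨h1, h2⟩]
  have hlt : ∀ x, x < u → g x = 0 := fun x h1 => by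
    rw [hg, cut, if_neg (fun h => absurd h.1 (not_le.2 h1))]
  have hgt : ∀ x, v < x → g x = 0 := fun x h1 => by
    rw [hg, cut, if_neg (fun h => absurd h.2 (not_le.2 h1))]
  -- support
  have hsupp : ∀ x, x ∉ Icc (u - (n : ℤ) * d) v → (S g d (n + 1) x) ^ 2 = 0 := by
    intro x hx
    have : S g d (n + 1) x = 0 := by
      unfold S
      refine sum_eq_zero fun j hj => ?_
      have hj' : (j : ℤ) ≤ n := by
        have := mem_range.1 hj
        exact_mod_cast Nat.lt_succ_iff.1 this
      have hj0 : (0 : ℤ) ≤ (j : ℤ) := Int.natCast_nonneg j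
      rw [mem_Icc, not_and_or, not_le, not_le] at hx
      rcases hx with hx | hx
      · apply hlt
        nlinarith
      · apply hgt
        nlinarith
    rw [this]; ring
  have step1 : En L g d (n + 1) ≤ ∑ x ∈ Icc (u - (n : ℤ) * d) v, (S g d (n + 1) x) ^ 2 := by
    unfold En
    have h1 : ∑ x ∈ box L, (S g d (n + 1) x) ^ 2
        = ∑ x ∈ box L ∩ Icc (u - (n : ℤ) * d) v, (S g d (n + 1) x) ^ 2 := by
      refine (sum_subset inter_subset_left ?_).symm
      intro x hx hx'
      apply hsupp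
      intro h
      exact hx' (mem_inter.2 ⟨hx, h⟩)
    rw [h1]
    exact sum_le_sum_of_subset_of_nonneg inter_subset_right (fun _ _ _ => sq_nonneg _)
  have hsplit : Icc (u - (n : ℤ) * d) v
      = (Ico (u - (n : ℤ) * d) u ∪ Icc u (v - (n : ℤ) * d)) ∪ Ioc (v - (n : ℤ) * d) v := by
    ext x
    simp only [mem_Icc, mem_union, mem_Ico, mem_Ioc]
    constructor
    · rintro ⟨h1, h2⟩
      by_cases h3 : x < u
      · left; left; exact ⟨h1, h3⟩
      · by_cases h4 : x ≤ v - (n : ℤ) * d
        · left; right; exact ⟨not_lt.1 h3, h4⟩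
        · right; exact ⟨not_le.1 h4, h2⟩
    · rintro ((⟨h1, h2⟩ | ⟨h1, h2⟩) | ⟨h1, h2⟩)
      · exact ⟨h1, by nlinarith⟩
      · exact ⟨by linarith, by linarith⟩
      · exact ⟨by nlinarith, h2⟩
  have hd1 : Disjoint (Ico (u - (n : ℤ) * d) u ∪ Icc u (v - (n : ℤ) * d))
      (Ioc (v - (n : ℤ) * d) v) := by
    rw [Finset.disjoint_left]
    intro x hx hx'
    rw [mem_union, mem_Ico, mem_Icc] at hx
    rw [mem_Ioc] at hx'
    rcases hx with hx | hx
    · nlinarith [hx.2, hx'.1]
    · linarith [hx.2, hx'.1]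
  have hd2 : Disjoint (Ico (u - (n : ℤ) * d) u) (Icc u (v - (n : ℤ) * d)) := by
    rw [Finset.disjoint_left]
    intro x hx hx'
    rw [mem_Ico] at hx
    rw [mem_Icc] at hx'
    linarith [hx.2, hx'.1]
  rw [hsplit, sum_union hd1, sum_union hd2] at step1
  -- left part
  have hleft : ∑ x ∈ Ico (u - (n : ℤ) * d) u, (S g d (n + 1) x) ^ 2
      = ∑ m ∈ Icc 1 n, Lf f u d m := by
    rw [blkL]
    have h1 : ∀ i ∈ range n, ∑ a ∈ Ico u (u + d), (S g d (n + 1) (a - ((i : ℤ) + 1) * d)) ^ 2
        = Lf f u d (n - i) := by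
      intro i hi
      have hi' := mem_range.1 hi
      unfold Lf
      refine sum_congr rfl fun a ha => ?_
      rw [mem_Ico] at ha
      congr 1
      unfold S
      have h2 : n + 1 = (i + 1) + (n - i) := by omega
      rw [h2, sum_range_add]
      have h3 : ∑ j ∈ range (i + 1), g (a - ((i : ℤ) + 1) * d + (j : ℤ) * d) = 0 := by
        refine sum_eq_zero fun j hj => ?_
        apply hlt
        have hj' : (j : ℤ) ≤ i := by exact_mod_cast Nat.lt_succ_iff.1 (mem_range.1 hj)
        nlinarith [ha.2]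
      rw [h3, zero_add]
      refine sum_congr rfl fun j hj => ?_
      have hj' := mem_range.1 hj
      have e : a - ((i : ℤ) + 1) * d + ((i + 1 + j : ℕ) : ℤ) * d = a + (j : ℤ) * d := by
        push_cast; ring
      rw [e]
      apply hin
      · have : (0 : ℤ) ≤ (j : ℤ) * d := by positivity
        linarith [ha.1]
      · have hj2 : (j : ℤ) + 1 ≤ n := by
          have : j + 1 ≤ n := by omega
          exact_mod_cast this
        nlinarith [ha.2]
    rw [sum_congr rfl h1]
    refine sum_nbij' (fun i => n - i) (fun m => n - m) ?_ ?_ ?_ ?_ ?_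
    · intro i hi; rw [mem_Icc]; have := mem_range.1 hi; omega
    · intro m hm; rw [mem_range]; rw [mem_Icc] at hm; omega
    · intro i hi; have := mem_range.1 hi; omega
    · intro m hm; rw [mem_Icc] at hm; omega
    · intro i _; rfl
  -- right part
  have hright : ∑ x ∈ Ioc (v - (n : ℤ) * d) v, (S g d (n + 1) x) ^ 2
      = ∑ m ∈ Icc 1 n, Rt f v d m := by
    rw [blkR]
    have h1 : ∀ i ∈ range n, ∑ b ∈ Ioc (v - d) v, (S g d (n + 1) (b - (i : ℤ) * d)) ^ 2
        = Rt f v d (i + 1) := by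
      intro i hi
      have hi' := mem_range.1 hi
      unfold Rt
      refine sum_congr rfl fun b hb => ?_
      rw [mem_Ioc] at hb
      congr 1
      unfold S
      have h2 : n + 1 = (i + 1) + (n - i) := by omega
      rw [h2, sum_range_add]
      have h3 : ∑ j ∈ range (n - i), g (b - (i : ℤ) * d + ((i + 1 + j : ℕ) : ℤ) * d) = 0 := by
        refine sum_eq_zero fun j hj => ?_
        apply hgt
        push_cast
        have hj' : (0 : ℤ) ≤ (j : ℤ) := Int.natCast_nonneg j
        nlinarith [hb.1]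
      rw [h3, add_zero]
      refine sum_congr rfl fun j hj => ?_
      have hj' : (j : ℤ) ≤ i := by exact_mod_cast Nat.lt_succ_iff.1 (mem_range.1 hj)
      have hj0 : (0 : ℤ) ≤ (j : ℤ) := Int.natCast_nonneg j
      have hi2 : (i : ℤ) + 1 ≤ n := by exact_mod_cast hi'
      have e : b - (((i + 1 : ℕ) : ℤ) - 1) * d = b - (i : ℤ) * d := by push_cast; ring
      rw [e]
      apply hin
      · nlinarith [hb.1]
      · nlinarith [hb.2]
    rw [sum_congr rfl h1]
    refine sum_nbij' (fun i => i + 1) (fun m => m - 1) ?_ ?_ ?_ ?_ ?_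
    · intro i hi; rw [mem_Icc]; have := mem_range.1 hi; omega
    · intro m hm; rw [mem_range]; rw [mem_Icc] at hm; omega
    · intro i hi
      show i + 1 - 1 = i
      omega
    · intro m hm; rw [mem_Icc] at hm; show m - 1 + 1 = m; omega
    · intro i _; rfl
  -- middle part
  have hmid : ∑ x ∈ Icc u (v - (n : ℤ) * d), (S g d (n + 1) x) ^ 2
      ≤ ((v - u + 1 : ℤ) : ℝ) * s := by
    have h1 : ∀ x ∈ Icc u (v - (n : ℤ) * d), (S g d (n + 1) x) ^ 2 ≤ s := by
      intro x hx
      rw [mem_Icc] at hx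
      have e : S g d (n + 1) x = S f d (n + 1) x := by
        unfold S
        refine sum_congr rfl fun j hj => ?_
        have hj' : (j : ℤ) ≤ n := by exact_mod_cast Nat.lt_succ_iff.1 (mem_range.1 hj)
        have hj0 : (0 : ℤ) ≤ (j : ℤ) := Int.natCast_nonneg j
        apply hin
        · nlinarith [hx.1]
        · nlinarith [hx.2]
      rw [e]
      refine hs x hx.1 ?_
      push_cast
      linarith [hx.2]
    refine (sum_le_card_nsmul _ _ _ h1).trans ?_
    rw [nsmul_eq_mul]
    refine mul_le_mul_of_nonneg_right ?_ hs0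
    rw [Int.card_Icc]
    have h2 : ((v - (n : ℤ) * d + 1 - u).toNat : ℤ) ≤ v - u + 1 := by
      rw [Int.toNat_of_nonneg (by linarith)]
      linarith
    exact_mod_cast h2
  have e0 : n + 1 - 1 = n := by omega
  rw [e0, sum_add_distrib]
  rw [hleft, hright] at step1
  linarith

end Pool.Agent.APD
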