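import Mathlib

/-!
# MP_164296_co: discrepancy of k-term arithmetic progressions, optimal quadratic bound

Basic notions: sums along progressions, energies on a box, cut functions.
-/

namespace Pool.Agent.APD

open Finset

/-- the sum of `g` over the progression `x, x+d, ..., x+(m-1)d` -/
noncomputable def S (g : ℤ → ℝ) (d : ℤ) (m : ℕ) (x : ℤ) : ℝ :=
  ∑ j ∈ range m, g (x + (j : ℤ) * d)

/-- the box `[-L, L]` -/
noncomputable def box (L : ℕ) : Finset ℤ := Icc (-(L : ℤ)) (L : ℤ)

/-- energy of all `m`-term sums with difference `d` with first term in the box -/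
noncomputable def En (L : ℕ) (g : ℤ → ℝ) (d : ℤ) (m : ℕ) : ℝ :=
  ∑ x ∈ box L, (S g d m x) ^ 2

/-- `f` cut to the interval `[u, v]` -/
noncomputable def cut (f : ℤ → ℝ) (u v : ℤ) : ℤ → ℝ :=
  fun x => if u ≤ x ∧ x ≤ v then f x else 0

/-- Dirichlet type kernel -/
noncomputable def Dk (m : ℕ) (φ : ℝ) : ℂ :=
  ∑ j ∈ range m, Complex.exp (2 * Real.pi * Complex.I * ((j : ℂ) * (φ : ℂ)))

/-- Fourier transform of a function on the box -/
noncomputable def hat (R : ℕ) (g : ℤ → ℝ) (θ : ℝ) : ℂ :=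
  ∑ x ∈ box R, (g x : ℂ) * Complex.exp (2 * Real.pi * Complex.I * (-(x : ℂ) * (θ : ℂ)))

/-- squares of the partial progressions starting at the left end of the cut -/
noncomputable def Lf (f : ℤ → ℝ) (u : ℤ) (d m : ℕ) : ℝ :=
  ∑ a ∈ Ico u (u + d), (S f d m a) ^ 2

/-- squares of the partial progressions ending at the right end of the cut -/
noncomputable def Rt (f : ℤ → ℝ) (v : ℤ) (d m : ℕ) : ℝ :=
  ∑ b ∈ Ioc (v - d) v, (S f d m (b - ((m : ℤ) - 1) * d)) ^ 2

end Pool.Agent.APD
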