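import Pool.Agent.APD.Stmts

set_option autoImplicit false

namespace Pool.Agent.APD

open Finset

namespace FEJ_

/-- shift lemma -/
theorem shift (L R : ℕ) (h : ℤ → ℝ) (hh : ∀ x, x ∉ box R → h x = 0) (t : ℤ)
    (ht : |t| + R ≤ L) : ∑ x ∈ box L, h (x + t) = ∑ y ∈ box R, h y := by
  have h1 : ∑ x ∈ box L, h (x + t) = ∑ y ∈ Icc (-(L : ℤ) + t) ((L : ℤ) + t), h y := by
    refine Finset.sum_nbij' (fun x => x + t) (fun y => y - t) ?_ ?_ ?_ ?_ ?_
    · intro x hx
      simp only [box, mem_Icc] at hx ⊢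
      omega
    · intro x hx
      simp only [box, mem_Icc] at hx ⊢
      omega
    · intro x _
      ring
    · intro x _
      ring
    · intro x _
      rfl
  rw [h1]
  symm
  refine Finset.sum_subset ?_ ?_
  · intro y hy
    have := neg_abs_le t
    have := le_abs_self t
    simp only [box, mem_Icc] at hy ⊢
    omega
  · intro y _ hy
    exact hh y hy

/-- autocorrelation -/
noncomputable def Rr (R : ℕ) (g : ℤ → ℝ) (t : ℤ) : ℝ := ∑ y ∈ box R, g y * g (y + t)

theorem En_eq (L R : ℕ) (g : ℤ → ℝ) (hg : ∀ x, x ∉ box R → g x = 0) (e : ℤ) (n : ℕ)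
    (h : ∀ i ∈ range n, |(i : ℤ) * e| + R ≤ L) :
    En L g e n = ∑ i ∈ range n, ∑ j ∈ range n, Rr R g (((j : ℤ) - i) * e) := by
  unfold En S
  have h1 : ∀ x ∈ box L, (∑ j ∈ range n, g (x + (j : ℤ) * e)) ^ 2 =
      ∑ i ∈ range n, ∑ j ∈ range n, g (x + (i : ℤ) * e) * g (x + (j : ℤ) * e) := by
    intro x _
    rw [sq, Finset.sum_mul_sum]
  rw [Finset.sum_congr rfl h1, Finset.sum_comm]
  refine Finset.sum_congr rfl fun i hi => ?_
  rw [Finset.sum_comm]
  refine Finset.sum_congr rfl fun j _ => ?_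
  have h2 := shift L R (fun y => g y * g (y + ((j : ℤ) - i) * e))
    (fun y hy => by simp only [hg y hy, zero_mul]) ((i : ℤ) * e) (h i hi)
  unfold Rr
  rw [← h2]
  refine Finset.sum_congr rfl fun x _ => ?_
  congr 2
  ring

theorem toeplitz (G : ℤ → ℝ) (hG : ∀ e, G (-e) = G e) (D : ℕ) :
    ∑ s ∈ range (D + 1), ∑ t ∈ range (D + 1), G ((s : ℤ) - t) =
      ((D : ℝ) + 1) * G 0 + 2 * ∑ d ∈ Icc 1 D, ((D : ℝ) + 1 - d) * G d := by
  induction D with
  | zero => simp
  | succ D ih =>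
    rw [Finset.sum_range_succ]
    have h1 : ∑ s ∈ range (D + 1), ∑ t ∈ range (D + 1 + 1), G ((s : ℤ) - t) =
        ∑ s ∈ range (D + 1), ∑ t ∈ range (D + 1), G ((s : ℤ) - t) +
        ∑ s ∈ range (D + 1), G ((s : ℤ) - (D + 1 : ℕ)) := by
      rw [← Finset.sum_add_distrib]
      exact Finset.sum_congr rfl fun s _ => Finset.sum_range_succ _ _
    rw [h1, ih]
    have h2 : ∑ s ∈ range (D + 1), G ((s : ℤ) - (D + 1 : ℕ)) = ∑ d ∈ Icc 1 (D + 1), G d := by
      refine Finset.sum_nbij' (fun s => D + 1 - s) (fun d => D + 1 - d) ?_ ?_ ?_ ?_ ?_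
      · intro s hs
        simp only [mem_range, mem_Icc] at hs ⊢
        omega
      · intro s hs
        simp only [mem_range, mem_Icc] at hs ⊢
        omega
      · intro s hs
        simp only [mem_range] at hs
        omega
      · intro s hs
        simp only [mem_Icc] at hs
        omega
      · intro s hs
        simp only [mem_range] at hs
        rw [← hG]
        congr 1
        push_cast [Nat.cast_sub (le_of_lt hs)]
        ring
    have h3 : ∑ t ∈ range (D + 1 + 1), G (((D + 1 : ℕ) : ℤ) - t) =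
        ∑ d ∈ Icc 1 (D + 1), G d + G 0 := by
      rw [Finset.sum_range_succ, sub_self]
      congr 1
      rw [← h2]
      refine Finset.sum_congr rfl fun s _ => ?_
      rw [← hG]
      congr 1
      ring
    rw [h2, h3]
    have h4 : ∑ d ∈ Icc 1 (D + 1), (((D + 1 : ℕ) : ℝ) + 1 - d) * G d =
        ∑ d ∈ Icc 1 D, ((D : ℝ) + 1 - d) * G d + ∑ d ∈ Icc 1 (D + 1), G d := by
      rw [Finset.sum_Icc_succ_top (by omega : 1 ≤ D + 1),
        Finset.sum_Icc_succ_top (by omega : 1 ≤ D + 1)]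
      have h5 : ∑ d ∈ Icc 1 D, (((D + 1 : ℕ) : ℝ) + 1 - d) * G d =
          ∑ d ∈ Icc 1 D, ((D : ℝ) + 1 - d) * G d + ∑ d ∈ Icc 1 D, G d := by
        rw [← Finset.sum_add_distrib]
        refine Finset.sum_congr rfl fun d _ => ?_
        push_cast
        ring
      rw [h5]
      push_cast
      ring
    rw [h4]
    push_cast
    ring

end FEJ_

open FEJ_ in
theorem fej_proof : Stmt_FEJ := by
  intro L R k D g hg hL
  set G : ℤ → ℝ := fun e => ∑ i ∈ range k, ∑ j ∈ range k, Rr R g (((j : ℤ) - i) * e) with hGdef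
  have hGeven : ∀ e, G (-e) = G e := by
    intro e
    simp only [hGdef]
    rw [Finset.sum_comm]
    refine Finset.sum_congr rfl fun i _ => Finset.sum_congr rfl fun j _ => ?_
    congr 1
    ring
  have hEnG : ∀ e : ℤ, |e| ≤ D → En L g e k = G e := by
    intro e he
    refine En_eq L R g hg e k fun i hi => ?_
    rw [mem_range] at hi
    rw [abs_mul, Nat.abs_cast]
    have h1 : (i : ℤ) * |e| ≤ k * D :=
      mul_le_mul (by exact_mod_cast hi.le) he (abs_nonneg _) (by positivity)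
    have h2 : ((R + k * (D + 1) : ℕ) : ℤ) ≤ L := by exact_mod_cast hL
    push_cast at h2
    nlinarith
  have hEn2 : ∀ i ∈ range k, ∀ j ∈ range k, En L g ((i : ℤ) - j) (D + 1) =
      ∑ s ∈ range (D + 1), ∑ t ∈ range (D + 1), Rr R g (((t : ℤ) - s) * ((i : ℤ) - j)) := by
    intro i hi j hj
    refine En_eq L R g hg _ (D + 1) fun s hs => ?_
    rw [mem_range] at hi hj hs
    rw [abs_mul, Nat.abs_cast]
    have h0 : |(i : ℤ) - j| ≤ k := by
      rw [abs_le]
      omega
    have h1 : (s : ℤ) * |(i : ℤ) - j| ≤ (D + 1) * k :=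
      mul_le_mul (by exact_mod_cast hs.le) h0 (abs_nonneg _) (by positivity)
    have h2 : ((R + k * (D + 1) : ℕ) : ℤ) ≤ L := by exact_mod_cast hL
    push_cast at h2
    nlinarith
  have key : ∑ s ∈ range (D + 1), ∑ t ∈ range (D + 1), G ((s : ℤ) - t) =
      ∑ i ∈ range k, ∑ j ∈ range k, En L g ((i : ℤ) - j) (D + 1) := by
    have h1 : ∑ i ∈ range k, ∑ j ∈ range k, En L g ((i : ℤ) - j) (D + 1) =
        ∑ i ∈ range k, ∑ j ∈ range k, ∑ s ∈ range (D + 1), ∑ t ∈ range (D + 1),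
          Rr R g (((t : ℤ) - s) * ((i : ℤ) - j)) :=
      Finset.sum_congr rfl fun i hi => Finset.sum_congr rfl fun j hj => hEn2 i hi j hj
    rw [h1]
    simp only [hGdef]
    -- move the sums
    have h2 : ∀ (F : ℕ → ℕ → ℕ → ℕ → ℝ),
        ∑ s ∈ range (D + 1), ∑ t ∈ range (D + 1), ∑ i ∈ range k, ∑ j ∈ range k, F s t i j =
        ∑ i ∈ range k, ∑ j ∈ range k, ∑ s ∈ range (D + 1), ∑ t ∈ range (D + 1), F s t i j := by
      intro F
      have e1 : ∀ s ∈ range (D + 1), ∑ t ∈ range (D + 1), ∑ i ∈ range k, ∑ j ∈ range k, F s t i j =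
          ∑ i ∈ range k, ∑ j ∈ range k, ∑ t ∈ range (D + 1), F s t i j := by
        intro s _
        rw [Finset.sum_comm]
        exact Finset.sum_congr rfl fun i _ => Finset.sum_comm
      rw [Finset.sum_congr rfl e1, Finset.sum_comm]
      exact Finset.sum_congr rfl fun i _ => Finset.sum_comm
    rw [h2]
    refine Finset.sum_congr rfl fun i _ => Finset.sum_congr rfl fun j _ =>
      Finset.sum_congr rfl fun s _ => Finset.sum_congr rfl fun t _ => ?_
    congr 1
    ring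
  rw [toeplitz G hGeven D] at key
  have hG0 : G 0 = (k : ℝ) ^ 2 * ∑ x ∈ box R, (g x) ^ 2 := by
    simp only [hGdef, mul_zero, Finset.sum_const, card_range, nsmul_eq_mul, Rr, add_zero]
    have : ∀ x : ℤ, g x * g x = g x ^ 2 := fun x => (sq _).symm
    simp only [this]
    ring
  have hdiag : (k : ℝ) * (((D : ℝ) + 1) ^ 2 * ∑ x ∈ box R, (g x) ^ 2) ≤
      ∑ i ∈ range k, ∑ j ∈ range k, En L g ((i : ℤ) - j) (D + 1) := by
    have h1 : (k : ℝ) * (((D : ℝ) + 1) ^ 2 * ∑ x ∈ box R, (g x) ^ 2) =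
        ∑ i ∈ range k, (((D : ℝ) + 1) ^ 2 * ∑ x ∈ box R, (g x) ^ 2) := by
      rw [Finset.sum_const, card_range, nsmul_eq_mul]
    rw [h1]
    refine Finset.sum_le_sum fun i hi => ?_
    have h2 : En L g ((i : ℤ) - i) (D + 1) = ((D : ℝ) + 1) ^ 2 * ∑ x ∈ box R, (g x) ^ 2 := by
      rw [hEn2 i hi i hi]
      simp only [sub_self, mul_zero, Finset.sum_const, card_range, nsmul_eq_mul, Rr, add_zero]
      have : ∀ x : ℤ, g x * g x = g x ^ 2 := fun x => (sq _).symm
      simp only [this]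
      push_cast
      ring
    rw [← h2]
    refine Finset.single_le_sum (f := fun j : ℕ => En L g ((i : ℤ) - j) (D + 1)) (fun j _ => ?_) hi
    exact Finset.sum_nonneg fun x _ => sq_nonneg _
  have hsum : ∑ d ∈ Icc 1 D, ((D : ℝ) + 1 - d) * En L g d k =
      ∑ d ∈ Icc 1 D, ((D : ℝ) + 1 - d) * G d := by
    refine Finset.sum_congr rfl fun d hd => ?_
    rw [mem_Icc] at hd
    rw [hEnG d (by rw [Nat.abs_cast]; exact_mod_cast hd.2)]
  rw [hsum]
  rw [← key, hG0] at hdiag
  nlinarith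

end Pool.Agent.APD
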