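import Pool.Agent.APD.Stmts

namespace Pool.Agent.APD

open Finset

namespace KER_

theorem Dk_eq (m : ℕ) (t : ℝ) :
    Dk m t = ∑ j ∈ range m, (Complex.exp (Complex.I * ((2 * Real.pi * t : ℝ) : ℂ))) ^ j := by
  unfold Dk
  refine Finset.sum_congr rfl fun j _ => ?_
  rw [← Complex.exp_nat_mul]
  congr 1
  push_cast
  ring

theorem Dk_le (m : ℕ) (t : ℝ) : ‖Dk m t‖ ≤ m := by
  rw [Dk_eq]
  refine (norm_sum_le _ _).trans ?_
  have : ∀ j ∈ range m,
      ‖(Complex.exp (Complex.I * ((2 * Real.pi * t : ℝ) : ℂ))) ^ j‖ ≤ 1 := by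
    intro j _
    rw [norm_pow, mul_comm Complex.I, Complex.norm_exp_ofReal_mul_I, one_pow]
  calc _ ≤ ∑ j ∈ range m, (1 : ℝ) := Finset.sum_le_sum this
    _ = m := by simp

theorem norm_pow_sub_one (n : ℕ) (t : ℝ) :
    ‖(Complex.exp (Complex.I * ((2 * Real.pi * t : ℝ) : ℂ))) ^ n - 1‖ =
      2 * |Real.sin (Real.pi * (n * t))| := by
  rw [← Complex.exp_nat_mul]
  have : (n : ℂ) * (Complex.I * ((2 * Real.pi * t : ℝ) : ℂ)) =
      Complex.I * ((2 * (Real.pi * (n * t)) : ℝ) : ℂ) := by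
    push_cast
    ring
  rw [this, Complex.norm_exp_I_mul_ofReal_sub_one]
  rw [Real.norm_eq_abs, abs_mul, abs_of_pos (by norm_num : (0 : ℝ) < 2)]
  congr 3
  ring

theorem key (m : ℕ) (t : ℝ) :
    (2 * |Real.sin (Real.pi * t)|) * ‖Dk m t‖ = 2 * |Real.sin (Real.pi * (m * t))| := by
  have h1 := norm_pow_sub_one 1 t
  have h2 := norm_pow_sub_one m t
  rw [pow_one, Nat.cast_one, one_mul] at h1
  rw [← h1, ← h2, Dk_eq, ← norm_mul, mul_geom_sum]

theorem abs_sin_sub (x : ℝ) (n : ℤ) : |Real.sin (x - n * Real.pi)| = |Real.sin x| := by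
  rw [Real.sin_sub_int_mul_pi, abs_mul, abs_zpow, abs_neg, abs_one, one_zpow, one_mul]

/-- the signed distance to the nearest integer -/
noncomputable def dl (t : ℝ) : ℝ := t - round t

theorem dl_abs (t : ℝ) : |dl t| ≤ 1 / 2 := abs_sub_round t

theorem sin_dl (t : ℝ) : |Real.sin (Real.pi * t)| = |Real.sin (Real.pi * dl t)| := by
  have : Real.pi * dl t = Real.pi * t - (round t : ℤ) * Real.pi := by
    unfold dl
    ring
  rw [this, abs_sin_sub]

theorem jordan {x : ℝ} (hx : |x| ≤ 1 / 2) : 2 * |x| ≤ |Real.sin (Real.pi * x)| := by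
  have hpi := Real.pi_pos
  have h1 : 2 / Real.pi * (Real.pi * |x|) ≤ Real.sin (Real.pi * |x|) := by
    apply Real.mul_le_sin
    · positivity
    · nlinarith
  have h2 : 2 / Real.pi * (Real.pi * |x|) = 2 * |x| := by
    field_simp
  rw [h2] at h1
  rcases abs_cases x with ⟨h, _⟩ | ⟨h, _⟩
  · rw [h] at h1 ⊢
    exact h1.trans (le_abs_self _)
  · rw [h] at h1 ⊢
    rw [show Real.pi * -x = -(Real.pi * x) by ring, Real.sin_neg] at h1
    exact h1.trans (neg_le_abs _)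

theorem K2 (m : ℕ) (t : ℝ) : 2 * |dl t| * ‖Dk m t‖ ≤ 1 := by
  have h := key m t
  have h1 := jordan (dl_abs t)
  rw [sin_dl] at h
  have h2 : |Real.sin (Real.pi * (m * t))| ≤ 1 := Real.abs_sin_le_one _
  have h3 : 0 ≤ ‖Dk m t‖ := norm_nonneg _
  nlinarith [mul_le_mul_of_nonneg_right h1 h3]

theorem K3 (k : ℕ) (t : ℝ) (h : |dl t| ≤ 1 / (2 * k)) :
    2 / 5 * (k : ℝ) ^ 2 ≤ ‖Dk k t‖ ^ 2 := by
  rcases Nat.eq_zero_or_pos k with hk | hk
  · subst hk
    simp [Dk]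
  have hk' : (0 : ℝ) < k := by exact_mod_cast hk
  have hpi := Real.pi_pos
  by_cases h0 : dl t = 0
  · have ht : t = (round t : ℤ) := by
      unfold dl at h0
      linarith
    have : Dk k t = k := by
      rw [Dk_eq]
      have h1 : Complex.exp (Complex.I * ((2 * Real.pi * t : ℝ) : ℂ)) = 1 := by
        rw [Complex.exp_eq_one_iff]
        refine ⟨round t, ?_⟩
        rw [ht]
        simp only [round_intCast]
        push_cast
        ring
      rw [h1]
      simp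
    rw [this]
    simp only [Complex.norm_natCast]
    nlinarith [sq_nonneg (k : ℝ)]
  · have hd : 0 < |dl t| := abs_pos.mpr h0
    have hkd : |(k : ℝ) * dl t| ≤ 1 / 2 := by
      rw [abs_mul, abs_of_pos hk']
      have := mul_le_mul_of_nonneg_left h hk'.le
      have h2 : (k : ℝ) * (1 / (2 * k)) = 1 / 2 := by field_simp
      linarith
    have h1 := jordan hkd
    have h2 : |Real.sin (Real.pi * (k * t))| = |Real.sin (Real.pi * (k * dl t))| := by
      have : Real.pi * (k * dl t) = Real.pi * (k * t) - ((k * round t : ℤ) : ℝ) * Real.pi := by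
        unfold dl
        push_cast
        ring
      rw [this, abs_sin_sub]
    have h3 := key k t
    rw [h2, sin_dl] at h3
    have h4 : |Real.sin (Real.pi * dl t)| ≤ Real.pi * |dl t| := by
      refine Real.abs_sin_le_abs.trans ?_
      rw [abs_mul, abs_of_pos hpi]
    have h5 : 2 * (k * |dl t|) ≤ Real.pi * |dl t| * ‖Dk k t‖ := by
      rw [abs_mul, abs_of_pos hk'] at h1
      have h6 := mul_le_mul_of_nonneg_right h4 (norm_nonneg (Dk k t))
      linarith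
    have h7 : 2 * (k : ℝ) ≤ Real.pi * ‖Dk k t‖ := by
      have : |dl t| * (2 * (k : ℝ)) ≤ |dl t| * (Real.pi * ‖Dk k t‖) := by linarith
      exact le_of_mul_le_mul_left this hd
    have h8 : Real.pi ^ 2 ≤ 10 := by
      have := Real.pi_lt_d2
      nlinarith
    have h9 : (2 * (k : ℝ)) ^ 2 ≤ (Real.pi * ‖Dk k t‖) ^ 2 :=
      pow_le_pow_left₀ (by positivity) h7 2
    rw [mul_pow, mul_pow] at h9
    nlinarith [mul_le_mul_of_nonneg_right h8 (sq_nonneg ‖Dk k t‖)]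

/-- the weight of a bucket -/
noncomputable def W (n : ℕ) : ℝ := if n = 0 then 1 else 1 / (n : ℝ) ^ 2

theorem W_sum (k : ℕ) : ∑ n ∈ range (k + 2), W n ≤ 3 - 1 / ((k : ℝ) + 1) := by
  induction k with
  | zero => norm_num [Finset.sum_range_succ, W]
  | succ k ih =>
    rw [Finset.sum_range_succ]
    have hk : (0 : ℝ) ≤ k := Nat.cast_nonneg k
    have h1 : W (k + 1 + 1) ≤ 1 / ((k : ℝ) + 1) - 1 / ((k : ℝ) + 2) := by
      unfold W
      rw [if_neg (by omega)]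
      push_cast
      rw [div_sub_div _ _ (by positivity) (by positivity), div_le_div_iff₀ (by positivity) (by positivity)]
      nlinarith
    push_cast
    have h2 : (k : ℝ) + 1 + 1 = k + 2 := by ring
    rw [h2]
    linarith

theorem point (k m : ℕ) (t : ℝ) (hk : 1 ≤ k) (hm : m ≤ k) :
    ‖Dk m t‖ ^ 2 ≤ (k : ℝ) ^ 2 * W ⌊2 * k * |dl t|⌋₊ := by
  have hk' : (0 : ℝ) < k := by exact_mod_cast hk
  have hmk : (m : ℝ) ≤ k := by exact_mod_cast hm
  have h1 : ‖Dk m t‖ ≤ k := (Dk_le m t).trans hmk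
  have h0 : 0 ≤ ‖Dk m t‖ := norm_nonneg _
  unfold W
  split_ifs with h
  · rw [mul_one]
    exact pow_le_pow_left₀ h0 h1 2
  · have hn : (0 : ℝ) < ⌊2 * k * |dl t|⌋₊ := by
      exact_mod_cast Nat.pos_of_ne_zero h
    have hle : (⌊2 * k * |dl t|⌋₊ : ℝ) ≤ 2 * k * |dl t| := Nat.floor_le (by positivity)
    set n : ℝ := (⌊2 * k * |dl t|⌋₊ : ℝ) with hndef
    have h2 := K2 m t
    have h3 : n * ‖Dk m t‖ ≤ k := by
      calc n * ‖Dk m t‖ ≤ (2 * k * |dl t|) * ‖Dk m t‖ := mul_le_mul_of_nonneg_right hle h0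
        _ = k * (2 * |dl t| * ‖Dk m t‖) := by ring
        _ ≤ k * 1 := mul_le_mul_of_nonneg_left h2 hk'.le
        _ = k := mul_one _
    have h4 : (n * ‖Dk m t‖) ^ 2 ≤ (k : ℝ) ^ 2 :=
      pow_le_pow_left₀ (by positivity) h3 2
    rw [mul_one_div, le_div_iff₀ (by positivity)]
    rw [mul_pow] at h4
    linarith

/-- the bucket of a number -/
noncomputable def bk (k : ℕ) (t : ℝ) : Bool × ℕ := (decide (0 ≤ dl t), ⌊2 * k * |dl t|⌋₊)

theorem close {k : ℕ} (hk : 1 ≤ k) {s t : ℝ} (h : bk k s = bk k t) :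
    |dl (t - s)| ≤ 1 / (2 * k) := by
  have hk' : (0 : ℝ) < k := by exact_mod_cast hk
  unfold bk at h
  rw [Prod.mk.injEq] at h
  obtain ⟨hs, hf⟩ := h
  have h1 : |dl (t - s)| ≤ |dl t - dl s| := by
    have := round_le (t - s) (round t - round s)
    unfold dl
    refine this.trans (le_of_eq ?_)
    congr 1
    push_cast
    ring
  refine h1.trans ?_
  have a1 : (⌊2 * k * |dl s|⌋₊ : ℝ) ≤ 2 * k * |dl s| := Nat.floor_le (by positivity)
  have a2 : 2 * k * |dl s| < ⌊2 * k * |dl s|⌋₊ + 1 := Nat.lt_floor_add_one _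
  have b1 : (⌊2 * k * |dl t|⌋₊ : ℝ) ≤ 2 * k * |dl t| := Nat.floor_le (by positivity)
  have b2 : 2 * k * |dl t| < ⌊2 * k * |dl t|⌋₊ + 1 := Nat.lt_floor_add_one _
  rw [hf] at a1 a2
  rw [le_div_iff₀ (by positivity)]
  set q : ℝ := 2 * (k : ℝ) with hq
  have hsg : (0 ≤ dl s ∧ 0 ≤ dl t) ∨ (dl s < 0 ∧ dl t < 0) := by
    by_cases c : 0 ≤ dl s
    · left
      refine ⟨c, ?_⟩
      simpa [c] using hs
    · right
      refine ⟨not_le.mp c, ?_⟩
      simpa [c] using hs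
  rcases hsg with ⟨c1, c2⟩ | ⟨c1, c2⟩
  · generalize (⌊q * |dl t|⌋₊ : ℝ) = N at a1 a2 b1 b2
    rw [abs_of_nonneg c1] at a1 a2
    rw [abs_of_nonneg c2] at b1 b2
    rcases abs_cases (dl t - dl s) with ⟨e, _⟩ | ⟨e, _⟩ <;> rw [e] <;> linarith
  · generalize (⌊q * |dl t|⌋₊ : ℝ) = N at a1 a2 b1 b2
    rw [abs_of_neg c1] at a1 a2
    rw [abs_of_neg c2] at b1 b2
    rcases abs_cases (dl t - dl s) with ⟨e, _⟩ | ⟨e, _⟩ <;> rw [e] <;> linarith

/-- the set of small differences -/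
noncomputable def A (k D : ℕ) (θ : ℝ) : Finset ℕ :=
  (Icc 1 D).filter fun d => |dl ((d : ℝ) * θ)| ≤ 1 / (2 * k)

theorem A_card (k D : ℕ) (θ : ℝ) :
    ((A k D θ).card : ℝ) * (2 / 5 * (k : ℝ) ^ 2) ≤ ∑ d ∈ Icc 1 D, ‖Dk k ((d : ℝ) * θ)‖ ^ 2 := by
  calc ((A k D θ).card : ℝ) * (2 / 5 * (k : ℝ) ^ 2)
      = ∑ d ∈ A k D θ, (2 / 5 * (k : ℝ) ^ 2) := by simp
    _ ≤ ∑ d ∈ A k D θ, ‖Dk k ((d : ℝ) * θ)‖ ^ 2 := by
        refine Finset.sum_le_sum fun d hd => ?_
        exact K3 k _ (Finset.mem_filter.mp hd).2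
    _ ≤ ∑ d ∈ Icc 1 D, ‖Dk k ((d : ℝ) * θ)‖ ^ 2 := by
        refine Finset.sum_le_sum_of_subset_of_nonneg (Finset.filter_subset _ _) ?_
        intros
        positivity

theorem bucket_card {k D : ℕ} (hk : 1 ≤ k) (θ : ℝ) (B : Finset ℕ)
    (hB : ∀ d ∈ B, ∀ d' ∈ B, d < d' → d' - d ≤ D) (b : Bool × ℕ)
    (hb : ∀ d ∈ B, bk k ((d : ℝ) * θ) = b) : B.card ≤ (A k D θ).card + 1 := by
  rcases B.eq_empty_or_nonempty with h | h
  · subst h
    simp
  set d0 := B.min' h with hd0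
  have hd0B : d0 ∈ B := B.min'_mem h
  have h1 : (B.erase d0).card ≤ (A k D θ).card := by
    refine Finset.card_le_card_of_injOn (fun d => d - d0) ?_ ?_
    · intro d hd
      rw [Finset.mem_coe, Finset.mem_erase] at hd
      have hle : d0 ≤ d := B.min'_le d hd.2
      have hlt : d0 < d := lt_of_le_of_ne hle (Ne.symm hd.1)
      have hD := hB d0 hd0B d hd.2 hlt
      rw [Finset.mem_coe]
      unfold A
      rw [Finset.mem_filter, Finset.mem_Icc]
      have h1le : 1 ≤ d - d0 := by omega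
      refine ⟨⟨h1le, hD⟩, ?_⟩
      have hc := close hk ((hb d0 hd0B).trans (hb d hd.2).symm)
      have e : ((d - d0 : ℕ) : ℝ) * θ = (d : ℝ) * θ - (d0 : ℝ) * θ := by
        rw [Nat.cast_sub hle]
        ring
      show |dl (((d - d0 : ℕ) : ℝ) * θ)| ≤ _
      rw [e]
      exact hc
    · intro d hd d' hd' he
      rw [Finset.mem_coe, Finset.mem_erase] at hd hd'
      have hle : d0 ≤ d := B.min'_le d hd.2
      have hle' : d0 ≤ d' := B.min'_le d' hd'.2
      have he' : d - d0 = d' - d0 := he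
      omega
  rw [Finset.card_erase_of_mem hd0B] at h1
  omega

theorem piece {k m D : ℕ} (hk : 1 ≤ k) (hm : m ≤ k) (θ : ℝ) (P : Finset ℕ)
    (hP : ∀ d ∈ P, ∀ d' ∈ P, d < d' → d' - d ≤ D) :
    ∑ d ∈ P, ‖Dk m ((d : ℝ) * θ)‖ ^ 2 ≤ 6 * (k : ℝ) ^ 2 * ((A k D θ).card + 1) := by
  classical
  have hk' : (0 : ℝ) < k := by exact_mod_cast hk
  set a : ℝ := ((A k D θ).card : ℝ) with ha
  have hmaps : ∀ d ∈ P, bk k ((d : ℝ) * θ) ∈ (Finset.univ : Finset Bool) ×ˢ range (k + 1) := by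
    intro d _
    rw [Finset.mem_product]
    refine ⟨Finset.mem_univ _, ?_⟩
    rw [Finset.mem_range, Nat.lt_succ_iff]
    show ⌊2 * k * |dl ((d : ℝ) * θ)|⌋₊ ≤ k
    apply Nat.floor_le_of_le
    have := dl_abs ((d : ℝ) * θ)
    nlinarith
  rw [← Finset.sum_fiberwise_of_maps_to hmaps]
  have hin : ∀ b ∈ (Finset.univ : Finset Bool) ×ˢ range (k + 1),
      ∑ d ∈ P.filter (fun d : ℕ => bk k ((d : ℝ) * θ) = b), ‖Dk m ((d : ℝ) * θ)‖ ^ 2 ≤
        (a + 1) * ((k : ℝ) ^ 2 * W b.2) := by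
    intro b _
    have hW : 0 ≤ W b.2 := by
      unfold W
      split_ifs <;> positivity
    calc ∑ d ∈ P.filter (fun d : ℕ => bk k ((d : ℝ) * θ) = b), ‖Dk m ((d : ℝ) * θ)‖ ^ 2
        ≤ ∑ d ∈ P.filter (fun d : ℕ => bk k ((d : ℝ) * θ) = b), ((k : ℝ) ^ 2 * W b.2) := by
          refine Finset.sum_le_sum fun d hd => ?_
          rw [Finset.mem_filter] at hd
          have := point k m ((d : ℝ) * θ) hk hm
          have e : b.2 = ⌊2 * k * |dl ((d : ℝ) * θ)|⌋₊ := by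
            rw [← hd.2]
            rfl
          rw [e]
          exact this
      _ = ((P.filter fun d : ℕ => bk k ((d : ℝ) * θ) = b).card : ℝ) * ((k : ℝ) ^ 2 * W b.2) := by
          simp
      _ ≤ (a + 1) * ((k : ℝ) ^ 2 * W b.2) := by
          refine mul_le_mul_of_nonneg_right ?_ (by positivity)
          have := bucket_card hk θ (P.filter fun d : ℕ => bk k ((d : ℝ) * θ) = b) (D := D)
            (fun d hd d' hd' hlt => hP d (Finset.mem_filter.mp hd).1 d' (Finset.mem_filter.mp hd').1 hlt)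
            b (fun d hd => (Finset.mem_filter.mp hd).2)
          rw [ha]
          exact_mod_cast this
  refine (Finset.sum_le_sum hin).trans ?_
  rw [Finset.sum_product]
  simp only
  rw [Finset.sum_const, Finset.card_univ, Fintype.card_bool]
  rw [← Finset.mul_sum, ← Finset.mul_sum]
  have hWs : ∑ n ∈ range (k + 1), W n ≤ 3 := by
    obtain ⟨k', rfl⟩ : ∃ k', k = k' + 1 := ⟨k - 1, by omega⟩
    have := W_sum k'
    have h2 : (0 : ℝ) < 1 / ((k' : ℝ) + 1) := by positivity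
    linarith
  have ha0 : 0 ≤ a := by rw [ha]; positivity
  rw [nsmul_eq_mul]
  push_cast
  have h3 : (a + 1) * ((k : ℝ) ^ 2 * ∑ n ∈ range (k + 1), W n) ≤ (a + 1) * ((k : ℝ) ^ 2 * 3) := by
    gcongr
  linarith

end KER_

open KER_ in
theorem ker_proof : Stmt_KER := by
  intro k m D θ hk hm
  have hsplit : ∑ d ∈ Icc 1 (2 * D + 1), ‖Dk m ((d : ℝ) * θ)‖ ^ 2 =
      ∑ d ∈ Icc 1 (D + 1), ‖Dk m ((d : ℝ) * θ)‖ ^ 2 +
      ∑ d ∈ Icc (D + 2) (2 * D + 1), ‖Dk m ((d : ℝ) * θ)‖ ^ 2 := by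
    rw [← Finset.sum_union]
    · congr 1
      ext d
      simp only [Finset.mem_union, Finset.mem_Icc]
      omega
    · rw [Finset.disjoint_left]
      intro d h1 h2
      rw [Finset.mem_Icc] at h1 h2
      omega
  rw [hsplit]
  have h1 := piece (D := D) hk hm θ (Icc 1 (D + 1)) (by
    intro d hd d' hd' _
    rw [Finset.mem_Icc] at hd hd'
    omega)
  have h2 := piece (D := D) hk hm θ (Icc (D + 2) (2 * D + 1)) (by
    intro d hd d' hd' _
    rw [Finset.mem_Icc] at hd hd'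
    omega)
  have h3 := A_card k D θ
  have h4 : 0 ≤ ∑ d ∈ Icc 1 D, ‖Dk k ((d : ℝ) * θ)‖ ^ 2 := by positivity
  nlinarith [sq_nonneg (k : ℝ)]

end Pool.Agent.APD
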