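import Pool.Agent.APD.Stmts

set_option autoImplicit false

namespace Pool.Agent.APD

open Finset

namespace LOW_

theorem sum_range_zmod (p : ℕ) [NeZero p] (G : ZMod p → ℝ) :
    ∑ j ∈ range p, G (j : ZMod p) = ∑ a : ZMod p, G a := by
  refine Finset.sum_nbij' (fun j => (j : ZMod p)) ZMod.val ?_ ?_ ?_ ?_ ?_
  · intro j _; exact mem_univ _
  · intro a _; exact mem_range.2 (ZMod.val_lt a)
  · intro j hj; exact ZMod.val_cast_of_lt (mem_range.1 hj)
  · intro a _; exact ZMod.natCast_zmod_val a
  · intro _ _; rfl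

/-- the sign function on the residues -/
noncomputable def F (p : ℕ) (a : ZMod p) : ℝ := if a.val < (p + 1) / 2 then 1 else -1

theorem sumF (p : ℕ) [NeZero p] :
    ∑ a : ZMod p, F p a = 2 * (((p + 1) / 2 : ℕ) : ℝ) - p := by
  rw [← sum_range_zmod]
  have h1 : ∀ j ∈ range p, F p (j : ZMod p) = 2 * (if j < (p + 1) / 2 then (1 : ℝ) else 0) - 1 := by
    intro j hj
    unfold F
    rw [ZMod.val_cast_of_lt (mem_range.1 hj)]
    split_ifs <;> norm_num
  rw [Finset.sum_congr rfl h1, Finset.sum_sub_distrib, ← Finset.mul_sum, Finset.sum_boole]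
  have h2 : (range p).filter (fun j => j < (p + 1) / 2) = range ((p + 1) / 2) := by
    ext j
    simp only [mem_filter, mem_range]
    omega
  rw [h2]
  simp

end LOW_

theorem low_proof : Stmt_LOW := by
  intro p hp
  have : Fact p.Prime := ⟨hp⟩
  have : NeZero p := ⟨hp.ne_zero⟩
  refine ⟨fun x => LOW_.F p (x : ZMod p), ?_, ?_⟩
  · intro x
    show LOW_.F p (x : ZMod p) = 1 ∨ LOW_.F p (x : ZMod p) = -1
    unfold LOW_.F
    split_ifs
    · exact Or.inl rfl
    · exact Or.inr rfl
  · intro x d hd1 hd2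
    have hd : ((d : ℕ) : ZMod p) ≠ 0 := by
      intro h
      rw [ZMod.natCast_eq_zero_iff] at h
      exact absurd (Nat.le_of_dvd (by omega) h) (by omega)
    have h1 : S (fun x : ℤ => LOW_.F p (x : ZMod p)) d p x =
        ∑ j ∈ range p, LOW_.F p ((x : ZMod p) + (j : ZMod p) * (d : ZMod p)) := by
      unfold S
      refine Finset.sum_congr rfl ?_
      intro j _
      push_cast
      rfl
    have hb : Function.Bijective (fun a : ZMod p => (x : ZMod p) + a * (d : ZMod p)) := by
      refine (Fintype.bijective_iff_injective_and_card _).2 ⟨?_, rfl⟩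
      intro a b hab
      have h := add_left_cancel hab
      exact mul_right_cancel₀ hd h
    rw [h1, LOW_.sum_range_zmod p (fun a => LOW_.F p ((x : ZMod p) + a * (d : ZMod p))),
      hb.sum_comp (LOW_.F p), LOW_.sumF p]
    have h2 : p ≤ 2 * ((p + 1) / 2) := by omega
    have h3 : 2 * ((p + 1) / 2) ≤ p + 1 := by omega
    have h4 : (p : ℝ) ≤ 2 * (((p + 1) / 2 : ℕ) : ℝ) := by exact_mod_cast h2
    have h5 : 2 * (((p + 1) / 2 : ℕ) : ℝ) ≤ (p : ℝ) + 1 := by exact_mod_cast h3
    rw [abs_le]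
    constructor <;> linarith

end Pool.Agent.APD
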