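import Pool.Agent.APD.Stmts

/-!
# APD, module PAR: Parseval
-/

set_option autoImplicit false

open Finset

namespace Pool.Agent.APD

namespace PAR_

theorem shift (L R : ℕ) (t : ℤ) (h : ℤ → ℂ) (hh : ∀ x, x ∉ box R → h x = 0)
    (ht : |t| + R ≤ L) : ∑ x ∈ box L, h (x + t) = ∑ y ∈ box R, h y := by
  have h1 : ∑ x ∈ box L, h (x + t) = ∑ y ∈ Icc (-(L : ℤ) + t) ((L : ℤ) + t), h y := by
    rw [← Finset.image_add_right_Icc, Finset.sum_image (fun a _ b _ hab => by simpa using hab)]
    rfl
  rw [h1]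
  symm
  apply Finset.sum_subset
  · intro x hx
    simp only [box, Finset.mem_Icc] at hx ⊢
    have := abs_le.mp (le_refl |t|)
    constructor <;> linarith [this.1, this.2, hx.1, hx.2]
  · intro x _ hx
    exact hh x hx

theorem intexp (n : ℤ) : ∫ θ in (0 : ℝ)..1, Complex.exp (2 * Real.pi * Complex.I * n * θ)
    = if n = 0 then 1 else 0 := by
  by_cases hn : n = 0
  · subst hn; simp
  · rw [if_neg hn]
    have hc : (2 * Real.pi * Complex.I * n : ℂ) ≠ 0 := by
      simp [Real.pi_ne_zero, hn]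
    rw [integral_exp_mul_complex hc]
    have h1 : Complex.exp (2 * Real.pi * Complex.I * n * (1 : ℝ)) = 1 := by
      rw [Complex.exp_eq_one_iff]
      exact ⟨n, by push_cast; ring⟩
    rw [h1]
    simp

theorem par (L : ℕ) (h : ℤ → ℝ) :
    ∫ θ in (0 : ℝ)..1, ‖∑ x ∈ box L, (h x : ℂ) *
      Complex.exp (2 * Real.pi * Complex.I * (-(x : ℂ) * (θ : ℂ)))‖ ^ 2
    = ∑ x ∈ box L, (h x) ^ 2 := by
  apply Complex.ofReal_injective
  rw [← intervalIntegral.integral_ofReal]
  have h1 : ∀ θ : ℝ, ((‖∑ x ∈ box L, (h x : ℂ) *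
      Complex.exp (2 * Real.pi * Complex.I * (-(x : ℂ) * (θ : ℂ)))‖ ^ 2 : ℝ) : ℂ)
      = ∑ x ∈ box L, ∑ y ∈ box L, ((h x : ℂ) * (h y : ℂ)) *
        Complex.exp (2 * Real.pi * Complex.I * ((y - x : ℤ) : ℂ) * θ) := by
    intro θ
    rw [← Complex.normSq_eq_norm_sq, ← Complex.mul_conj, map_sum, Finset.sum_mul_sum]
    refine Finset.sum_congr rfl fun x _ => Finset.sum_congr rfl fun y _ => ?_
    rw [map_mul, Complex.conj_ofReal, ← Complex.exp_conj]
    have h2 : (starRingEnd ℂ) (2 * Real.pi * Complex.I * (-(y : ℂ) * (θ : ℂ)))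
        = 2 * Real.pi * Complex.I * ((y : ℂ) * (θ : ℂ)) := by
      simp only [map_mul, map_neg, Complex.conj_ofReal, Complex.conj_I]
      have h3 : (starRingEnd ℂ) (y : ℂ) = (y : ℂ) := map_intCast _ y
      have h4 : (starRingEnd ℂ) (2 : ℂ) = 2 := Complex.conj_ofNat 2
      rw [h3, h4]
      ring
    rw [h2]
    calc (h x : ℂ) * Complex.exp (2 * Real.pi * Complex.I * (-(x : ℂ) * (θ : ℂ))) *
        ((h y : ℂ) * Complex.exp (2 * Real.pi * Complex.I * ((y : ℂ) * (θ : ℂ))))
        = (h x : ℂ) * (h y : ℂ) * (Complex.exp (2 * Real.pi * Complex.I * (-(x : ℂ) * (θ : ℂ))) *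
          Complex.exp (2 * Real.pi * Complex.I * ((y : ℂ) * (θ : ℂ)))) := by ring
      _ = _ := by
        rw [← Complex.exp_add]
        congr 2
        push_cast
        ring
  simp only [h1]
  rw [intervalIntegral.integral_finsetSum]
  · have h5 : ∀ x ∈ box L, (∫ θ in (0 : ℝ)..1, ∑ y ∈ box L, ((h x : ℂ) * (h y : ℂ)) *
        Complex.exp (2 * Real.pi * Complex.I * ((y - x : ℤ) : ℂ) * θ)) = ((h x) ^ 2 : ℝ) := by
      intro x hx
      rw [intervalIntegral.integral_finsetSum]
      · have h6 : ∀ y ∈ box L, (∫ θ in (0 : ℝ)..1, ((h x : ℂ) * (h y : ℂ)) *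
            Complex.exp (2 * Real.pi * Complex.I * ((y - x : ℤ) : ℂ) * θ))
            = if y = x then ((h x : ℂ) * (h y : ℂ)) else 0 := by
          intro y _
          rw [intervalIntegral.integral_const_mul, intexp]
          by_cases hxy : y = x
          · simp [hxy]
          · simp [hxy, sub_eq_zero]
        rw [Finset.sum_congr rfl h6, Finset.sum_ite_eq' (box L) x]
        rw [if_pos hx]
        push_cast
        ring
      · intro y _
        apply Continuous.intervalIntegrable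
        fun_prop
    rw [Finset.sum_congr rfl h5]
    push_cast
    rfl
  · intro x _
    apply Continuous.intervalIntegrable
    fun_prop

end PAR_

open PAR_

theorem par_proof : Stmt_PAR := by
  intro L R d m g hg hL
  have h1 : ∀ θ : ℝ, ∑ x ∈ box L, (S g d m x : ℂ) *
      Complex.exp (2 * Real.pi * Complex.I * (-(x : ℂ) * (θ : ℂ)))
      = Dk m ((d : ℝ) * θ) * hat R g θ := by
    intro θ
    have h2 : ∀ x : ℤ, (S g d m x : ℂ) *
        Complex.exp (2 * Real.pi * Complex.I * (-(x : ℂ) * (θ : ℂ)))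
        = ∑ j ∈ range m, Complex.exp (2 * Real.pi * Complex.I * ((j : ℂ) * (((d : ℝ) * θ : ℝ) : ℂ))) *
          ((g (x + (j : ℤ) * d) : ℂ) * Complex.exp (2 * Real.pi * Complex.I *
            (-((x + (j : ℤ) * d : ℤ) : ℂ) * (θ : ℂ)))) := by
      intro x
      rw [S]
      push_cast
      rw [Finset.sum_mul]
      refine Finset.sum_congr rfl fun j _ => ?_
      have h3 : Complex.exp (2 * Real.pi * Complex.I * (-(x : ℂ) * (θ : ℂ)))
          = Complex.exp (2 * Real.pi * Complex.I * ((j : ℂ) * ((d : ℂ) * (θ : ℂ)))) *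
            Complex.exp (2 * Real.pi * Complex.I * (-((x : ℂ) + (j : ℂ) * (d : ℂ)) * (θ : ℂ))) := by
        rw [← Complex.exp_add]
        congr 1
        ring
      rw [h3]
      ring
    simp only [h2]
    rw [Finset.sum_comm, Dk, Finset.sum_mul]
    refine Finset.sum_congr rfl fun j hj => ?_
    rw [← Finset.mul_sum]
    congr 1
    rw [hat]
    refine shift L R ((j : ℤ) * d) (fun x => (g x : ℂ) *
      Complex.exp (2 * Real.pi * Complex.I * (-(x : ℂ) * (θ : ℂ)))) ?_ ?_
    · intro x hx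
      simp [hg x hx]
    · have hj' : j < m := Finset.mem_range.mp hj
      rw [abs_of_nonneg (by positivity)]
      have : j * d + R ≤ L := by
        have : j * d ≤ m * d := Nat.mul_le_mul_right d hj'.le
        omega
      exact_mod_cast this
  have h4 := par L (S g d m)
  simp only [h1] at h4
  rw [En, ← h4]
  congr 1
  funext θ
  rw [norm_mul, mul_pow]
  ring

end Pool.Agent.APD
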