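import Pool.Agent.APD.Stmts

set_option autoImplicit false

/-!
# APD, module RGT: summing the right boundary parts over a range of cuts
-/

namespace Pool.Agent.APD

open Finset

namespace RGT_

theorem sum_Ioc (w : ℤ) (d : ℕ) (F : ℤ → ℝ) :
    ∑ a ∈ Ioc (w - d) w, F a = ∑ c ∈ range d, F (w - c) := by
  refine (Finset.sum_nbij' (fun c : ℕ => w - (c : ℤ)) (fun a : ℤ => (w - a).toNat) ?_ ?_ ?_ ?_ ?_).symm
  · intro c hc
    have := mem_range.mp hc
    rw [mem_Ioc]
    omega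
  · intro a ha
    rw [mem_Ioc] at ha
    rw [mem_range]
    omega
  · intro c _
    show (w - (w - (c : ℤ))).toNat = c
    omega
  · intro a ha
    rw [mem_Ioc] at ha
    show w - ((w - a).toNat : ℤ) = a
    omega
  · intro c _
    rfl

theorem sum_shift (p q c : ℤ) (L : ℕ) (G : ℤ → ℝ) (hG : ∀ x, 0 ≤ G x)
    (h : ∀ w, w ∈ Icc p q → w + c ∈ box L) :
    ∑ w ∈ Icc p q, G (w + c) ≤ ∑ x ∈ box L, G x := by
  have hinj : Set.InjOn (fun w : ℤ => w + c) (Icc p q : Finset ℤ) := fun a _ b _ hab => by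
    have : a + c = b + c := hab
    omega
  rw [← Finset.sum_image (f := G) (g := fun w : ℤ => w + c) hinj]
  refine Finset.sum_le_sum_of_subset_of_nonneg ?_ (fun x _ _ => hG x)
  intro x hx
  obtain ⟨w, hw, rfl⟩ := Finset.mem_image.mp hx
  exact h w hw

theorem S_cut (f : ℤ → ℝ) (u v : ℤ) (d m : ℕ) (x : ℤ) (h1 : u ≤ x)
    (h2 : x + ((m : ℤ) - 1) * d ≤ v) : S (cut f u v) d m x = S f d m x := by
  unfold S
  refine Finset.sum_congr rfl fun j hj => ?_
  have hj' : (j : ℤ) ≤ (m : ℤ) - 1 := by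
    have := mem_range.mp hj
    omega
  have h3 : (j : ℤ) * d ≤ ((m : ℤ) - 1) * d := mul_le_mul_of_nonneg_right hj' (by positivity)
  have h4 : (0 : ℤ) ≤ (j : ℤ) * d := by positivity
  unfold cut
  rw [if_pos ⟨by linarith, by linarith⟩]

end RGT_

open RGT_

/-- module RGT: summing the right boundary parts over a range of cuts -/
theorem rgt_proof : Stmt_RGT := by
  intro L d m u v p q f hd hm hqv hup h0u hqL
  have hmd : ((m : ℤ) - 1) * d = (m : ℤ) * d - d := by ring
  have h1 : ∀ w ∈ Icc p q, Rt f w d m =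
      ∑ c ∈ range d, (S (cut f u v) d m (w + (-(c : ℤ) - ((m : ℤ) - 1) * d))) ^ 2 := by
    intro w hw
    rw [mem_Icc] at hw
    unfold Rt
    rw [sum_Ioc w d (fun b => (S f d m (b - ((m : ℤ) - 1) * d)) ^ 2)]
    refine Finset.sum_congr rfl fun c hc => ?_
    have hc' := mem_range.mp hc
    have h3 : w - (c : ℤ) - ((m : ℤ) - 1) * d = w + (-(c : ℤ) - ((m : ℤ) - 1) * d) := by ring
    rw [h3, S_cut f u v d m _ (by rw [hmd]; omega) (by rw [hmd]; omega)]
  rw [Finset.sum_congr rfl h1, Finset.sum_comm]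
  have h3 : ∀ c ∈ range d,
      ∑ w ∈ Icc p q, (S (cut f u v) d m (w + (-(c : ℤ) - ((m : ℤ) - 1) * d))) ^ 2
      ≤ En L (cut f u v) d m := by
    intro c hc
    have hc' := mem_range.mp hc
    refine sum_shift p q _ L (fun x => (S (cut f u v) d m x) ^ 2) (fun x => sq_nonneg _) ?_
    intro w hw
    rw [mem_Icc] at hw
    have hmd0 : (0 : ℤ) ≤ ((m : ℤ) - 1) * d := by
      have : (0 : ℤ) ≤ (m : ℤ) - 1 := by omega
      positivity
    unfold box
    rw [mem_Icc]
    rw [hmd] at hmd0 ⊢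
    omega
  refine (Finset.sum_le_sum h3).trans ?_
  rw [Finset.sum_const, card_range, nsmul_eq_mul]

end Pool.Agent.APD
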