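import Pool.Agent.APD.Defs

namespace Pool.Agent.APD

open Finset

/-- KER: pointwise kernel inequality (short sums are controlled by full sums of half the
differences). -/
def Stmt_KER : Prop := ∀ (k m D : ℕ) (θ : ℝ), 1 ≤ k → m ≤ k →
  ∑ d ∈ Icc 1 (2 * D + 1), ‖Dk m ((d : ℝ) * θ)‖ ^ 2 ≤
    30 * ((k : ℝ) ^ 2 + ∑ d ∈ Icc 1 D, ‖Dk k ((d : ℝ) * θ)‖ ^ 2)

/-- PAR: Parseval. -/
def Stmt_PAR : Prop := ∀ (L R d m : ℕ) (g : ℤ → ℝ), (∀ x, x ∉ box R → g x = 0) →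
  R + m * d ≤ L →
  En L g d m = ∫ θ in (0 : ℝ)..1, ‖hat R g θ‖ ^ 2 * ‖Dk m ((d : ℝ) * θ)‖ ^ 2

/-- CMP: comparison of energies. -/
def Stmt_CMP : Prop := ∀ (L R k m D : ℕ) (g : ℤ → ℝ), 1 ≤ k → m ≤ k →
  (∀ x, x ∉ box R → g x = 0) → R + k * (2 * D + 1) ≤ L →
  ∑ d ∈ Icc 1 (2 * D + 1), En L g d m ≤
    30 * ((k : ℝ) ^ 2 * ∑ x ∈ box R, (g x) ^ 2 + ∑ d ∈ Icc 1 D, En L g d k)

/-- DEC: the energy of a cut function is at most the inside part plus the boundary parts. -/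
def Stmt_DEC : Prop := ∀ (L k d : ℕ) (u v : ℤ) (f : ℤ → ℝ) (s : ℝ), 1 ≤ d → 1 ≤ k →
  u + k * d ≤ v → (∀ x : ℤ, u ≤ x → x + ((k : ℤ) - 1) * d ≤ v → (S f d k x) ^ 2 ≤ s) → 0 ≤ s →
  En L (cut f u v) d k ≤ ((v - u + 1 : ℤ) : ℝ) * s +
    ∑ m ∈ Icc 1 (k - 1), (Lf f u d m + Rt f v d m)

/-- LFT: summing the left boundary parts over a range of cuts. -/
def Stmt_LFT : Prop := ∀ (L d m : ℕ) (u v p q : ℤ) (f : ℤ → ℝ), 1 ≤ d → 1 ≤ m →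
  u ≤ p → q + (m : ℤ) * d ≤ v → 0 ≤ p → q + d ≤ L →
  ∑ w ∈ Icc p q, Lf f w d m ≤ (d : ℝ) * En L (cut f u v) d m

/-- RGT: summing the right boundary parts over a range of cuts. -/
def Stmt_RGT : Prop := ∀ (L d m : ℕ) (u v p q : ℤ) (f : ℤ → ℝ), 1 ≤ d → 1 ≤ m →
  q ≤ v → u + (m : ℤ) * d ≤ p → 0 ≤ u → q ≤ L →
  ∑ w ∈ Icc p q, Rt f w d m ≤ (d : ℝ) * En L (cut f u v) d m

/-- FEJ: lower bound for the energies by Fejer positivity. -/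
def Stmt_FEJ : Prop := ∀ (L R k D : ℕ) (g : ℤ → ℝ), (∀ x, x ∉ box R → g x = 0) →
  R + k * (D + 1) ≤ L →
  ((D : ℝ) + 1) * k * ((D : ℝ) + 1 - k) * ∑ x ∈ box R, (g x) ^ 2 ≤
    2 * ∑ d ∈ Icc 1 D, ((D : ℝ) + 1 - d) * En L g d k

/-- LOW: for a prime `p` there is a sign function on the integers all of whose `p`-term sums
with difference less than `p` are at most one in absolute value. -/
def Stmt_LOW : Prop := ∀ p : ℕ, p.Prime → ∃ f : ℤ → ℝ, (∀ x, f x = 1 ∨ f x = -1) ∧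
  ∀ (x : ℤ) (d : ℕ), 1 ≤ d → d < p → |S f d p x| ≤ 1

end Pool.Agent.APD
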